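import Pool.Agent.W4.CF.Stms4

set_option autoImplicit false

namespace Pool.Agent.W4.CF

open NumberField IsDedekindDomain

theorem fin_int_le {K : Type} [Field K] [NumberField K] (P : HeightOneSpectrum (𝓞 K)) (u : ℤ) :
    FinitePlace.mk P (u : K) ≤ 1 := by
  have h := FinitePlace.norm_le_one K P ((u : ℤ) : 𝓞 K)
  rw [map_intCast] at h
  exact h

theorem fin_max {K : Type} [Field K] [NumberField K] (P : HeightOneSpectrum (𝓞 K)) (u v : ℤ)
    (h : IsCoprime u v) : max (FinitePlace.mk P (u : K)) (FinitePlace.mk P (v : K)) = 1 := by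
  obtain ⟨s, t, hst⟩ := h
  refine le_antisymm (max_le (fin_int_le P u) (fin_int_le P v)) ?_
  have h1 : FinitePlace.mk P (((s : K) * u) + (t : K) * v) = 1 := by
    have h2 : ((s : K) * u) + (t : K) * v = 1 := by exact_mod_cast hst
    rw [h2]
    exact map_one _
  rw [← h1]
  refine (FinitePlace.add_le _ _ _).trans ?_
  rw [map_mul, map_mul]
  have hu0 : 0 ≤ FinitePlace.mk P (u : K) := apply_nonneg _ _
  have hv0 : 0 ≤ FinitePlace.mk P (v : K) := apply_nonneg _ _
  apply max_le_max
  · exact mul_le_of_le_one_left hu0 (fin_int_le P s)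
  · exact mul_le_of_le_one_left hv0 (fin_int_le P t)

theorem t_HTQ : S_HTQ := by
  intro K _ _ u v huv hv
  have hvK : (v : K) ≠ 0 := Int.cast_ne_zero.mpr hv
  have hv0 : (0 : ℝ) < |(v : ℝ)| := abs_pos.mpr (by exact_mod_cast hv)
  have hn : (0 : ℝ) < Module.finrank ℚ K := by exact_mod_cast Module.finrank_pos
  -- finite part
  have hfin : ∑ᶠ P : HeightOneSpectrum (𝓞 K),
      Real.log (max (FinitePlace.mk P ((u : K) / v)) (FinitePlace.mk P 1)) =
      Module.finrank ℚ K * Real.log |(v : ℝ)| := by
    have h1 : ∀ P : HeightOneSpectrum (𝓞 K),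
        Real.log (max (FinitePlace.mk P ((u : K) / v)) (FinitePlace.mk P 1)) =
        - Real.log (FinitePlace.mk P (v : K)) := by
      intro P
      have hpos : 0 < FinitePlace.mk P (v : K) := FinitePlace.pos_iff.mpr hvK
      have h2 : max (FinitePlace.mk P ((u : K) / v)) (FinitePlace.mk P 1) =
          (FinitePlace.mk P (v : K))⁻¹ := by
        rw [map_div₀, map_one]
        have h3 := fin_max P u v huv
        have h4 : max (FinitePlace.mk P (u : K) / FinitePlace.mk P (v : K)) 1 =
            max (FinitePlace.mk P (u : K)) (FinitePlace.mk P (v : K)) /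
              FinitePlace.mk P (v : K) := by
          rw [← max_div_div_right hpos.le, div_self hpos.ne']
        rw [h4, h3, one_div]
      rw [h2, Real.log_inv]
    simp_rw [h1]
    rw [finsum_neg_distrib, ← Real.log_finprod (fun P => FinitePlace.pos_iff.mpr hvK)]
    have h5 : ∏ᶠ P : HeightOneSpectrum (𝓞 K), FinitePlace.mk P (v : K) =
        ∏ᶠ w : FinitePlace K, w (v : K) :=
      finprod_comp_equiv (f := fun w : FinitePlace K => w (v : K))
        FinitePlace.equivHeightOneSpectrum.symm
    rw [h5, FinitePlace.prod_eq_inv_abs_norm hvK]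
    have h6 : Algebra.norm ℚ (v : K) = (v : ℚ) ^ Module.finrank ℚ K := by
      have h7 : (v : K) = algebraMap ℚ K (v : ℚ) := by simp
      rw [h7, Algebra.norm_algebraMap]
    rw [h6]
    push_cast
    rw [abs_pow, Real.log_inv, Real.log_pow, neg_neg]
  have hinf : ∑ w : InfinitePlace K, (w.mult : ℝ) *
      Real.log (max (w ((u : K) / v)) (w 1)) =
      Module.finrank ℚ K * (Real.log (max |(u : ℝ)| |(v : ℝ)|) - Real.log |(v : ℝ)|) := by
    have hcast : ∀ (w : InfinitePlace K) (z : ℤ), w (z : K) = |(z : ℝ)| := by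
      intro w z
      rw [← InfinitePlace.norm_embedding_eq w, map_intCast, Complex.norm_intCast]
    have h1 : ∀ w : InfinitePlace K, (w.mult : ℝ) * Real.log (max (w ((u : K) / v)) (w 1)) =
        (w.mult : ℝ) * (Real.log (max |(u : ℝ)| |(v : ℝ)|) - Real.log |(v : ℝ)|) := by
      intro w
      congr 1
      rw [map_div₀, map_one, hcast, hcast]
      have h4 : max (|(u : ℝ)| / |(v : ℝ)|) 1 = max |(u : ℝ)| |(v : ℝ)| / |(v : ℝ)| := by
        rw [← max_div_div_right hv0.le, div_self hv0.ne']
      rw [h4, Real.log_div (ne_of_gt (lt_max_of_lt_right hv0)) hv0.ne']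
    simp_rw [h1]
    rw [← Finset.sum_mul]
    congr 1
    exact_mod_cast InfinitePlace.sum_mult_eq
  unfold heightK
  rw [hfin, hinf]
  field_simp
  ring

end Pool.Agent.W4.CF
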