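import Pool.Agent.W4.CF.Main
import Pool.Agent.W270.TM.Glob

/-!
# Project CF: the modified Szpiro inequality and the semistable case
-/

set_option autoImplicit false

namespace Pool.Agent.W4.CF

open NumberField Finset
open Pool.Agent.W270.TM (ExcW ExcU excW_count)
open Pool.Agent.H39R3 (GMin condW)

/-- a non-rational point of order two over `K`: the 2-division polynomial has an irrational root
in `K` -/
def TwoK (K : Type) [Field K] [NumberField K] (W : WeierstrassCurve ℤ) : Prop :=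
  ∃ θ : K, (∀ r : ℚ, θ ≠ algebraMap ℚ K r) ∧
    4 * θ ^ 3 + (W.b₂ : K) * θ ^ 2 + 2 * (W.b₄ : K) * θ + (W.b₆ : K) = 0

theorem twoK_root (K : Type) [Field K] [NumberField K] (W : WeierstrassCurve ℤ) (u : ℚ) (a b : ℤ)
    (hu : u ≠ 0) (ha : (a : ℚ) = u ^ 4 * (27 * W.c₄ : ℤ)) (hb : (b : ℚ) = u ^ 6 * (54 * W.c₆ : ℤ))
    (hT : TwoK K W) : HasK K a b := by
  obtain ⟨θ, hθ, h⟩ := hT
  refine ⟨(algebraMap ℚ K u) ^ 2 * (36 * θ + 3 * (W.b₂ : K)), ?_, ?_⟩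
  · intro r hr
    apply hθ ((r / u ^ 2 - 3 * (W.b₂ : ℚ)) / 36)
    have hu' : (algebraMap ℚ K u) ≠ 0 := by
      rw [Ne, map_eq_zero]
      exact hu
    rw [map_div₀, map_sub, map_div₀, map_pow, map_mul, map_ofNat, map_ofNat, map_intCast, ← hr]
    field_simp
    ring
  · have hc4 : ((W.c₄ : ℤ) : ℚ) = (W.b₂ : ℚ) ^ 2 - 24 * W.b₄ := by
      unfold WeierstrassCurve.c₄
      push_cast
      ring
    have hc6 : ((W.c₆ : ℤ) : ℚ) = -(W.b₂ : ℚ) ^ 3 + 36 * W.b₂ * W.b₄ - 216 * W.b₆ := by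
      unfold WeierstrassCurve.c₆
      push_cast
      ring
    have ha' : (a : K) = (algebraMap ℚ K u) ^ 4 * (27 * ((W.b₂ : K) ^ 2 - 24 * W.b₄)) := by
      have h1 := congrArg (algebraMap ℚ K) ha
      push_cast at h1
      rw [hc4] at h1
      simp only [map_mul, map_sub, map_pow, map_intCast, map_ofNat] at h1
      exact h1
    have hb' : (b : K) = (algebraMap ℚ K u) ^ 6 *
        (54 * (-(W.b₂ : K) ^ 3 + 36 * W.b₂ * W.b₄ - 216 * W.b₆)) := by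
      have h1 := congrArg (algebraMap ℚ K) hb
      push_cast at h1
      rw [hc6] at h1
      simp only [map_mul, map_sub, map_add, map_neg, map_pow, map_intCast, map_ofNat] at h1
      exact h1
    rw [ha', hb']
    linear_combination (11664 * (algebraMap ℚ K u) ^ 6) * h

/-- the modified inequality for global minimal equations -/
theorem core_mod (hT : S_T) (hP : S_PARAM) (hC : S_COND) (K : Type) [Field K] [NumberField K]
    (hK : Module.finrank ℚ K = 3) (κ c ε : ℝ) (hκ : 6 ≤ κ) (hc : 0 < c) (hε : 0 < ε) :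
    ∃ C : ℝ, 0 < C ∧ ∀ X : ℕ, 1 ≤ X →
      (ExcW (TwoK K) κ c X).Finite ∧
      ((ExcW (TwoK K) κ c X).ncard : ℝ) ≤ C * (X : ℝ) ^ (min (1 / 8 + 9 / (2 * κ)) (11 / (2 * κ)) + ε) := by
  refine excW_count (TwoK K) (HasK K) (twoK_root K) κ c _ hκ hc ?_
  exact core hT hP hC K hK κ (746496 / c) ε hκ (by positivity) hε

/-- a Weierstrass equation with `gcd(c₄, Δ) = 1` is minimal -/
theorem gmin_of_coprime (W : WeierstrassCurve ℤ) (hΔ : W.Δ ≠ 0) (hco : IsCoprime W.c₄ W.Δ) :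
    GMin W := by
  refine ⟨hΔ, ?_⟩
  rintro W' ⟨C, hC⟩
  have h4 : ((W'.c₄ : ℤ) : ℚ) = ((C.u⁻¹ : ℚˣ) : ℚ) ^ 4 * (W.c₄ : ℤ) := by
    have h1 := WeierstrassCurve.variableChange_c₄ (W.map (Int.castRingHom ℚ)) C
    rw [hC, WeierstrassCurve.map_c₄, WeierstrassCurve.map_c₄] at h1
    exact h1
  have h12 : ((W'.Δ : ℤ) : ℚ) = ((C.u⁻¹ : ℚˣ) : ℚ) ^ 12 * (W.Δ : ℤ) := by
    have h1 := WeierstrassCurve.variableChange_Δ (W.map (Int.castRingHom ℚ)) C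
    rw [hC, WeierstrassCurve.map_Δ, WeierstrassCurve.map_Δ] at h1
    exact h1
  set w : ℚ := ((C.u⁻¹ : ℚˣ) : ℚ) with hw
  have hw0 : w ≠ 0 := Units.ne_zero _
  have hden : (w.den : ℤ) ≠ 0 := by exact_mod_cast w.den_nz
  have hwe : w = (w.num : ℚ) / (w.den : ℚ) := (Rat.num_div_den w).symm
  have hdenQ : (w.den : ℚ) ≠ 0 := by exact_mod_cast w.den_nz
  have e4 : W'.c₄ * (w.den : ℤ) ^ 4 = w.num ^ 4 * W.c₄ := by
    rw [hwe, div_pow, div_mul_eq_mul_div, eq_div_iff (pow_ne_zero _ hdenQ)] at h4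
    exact_mod_cast h4
  have e12 : W'.Δ * (w.den : ℤ) ^ 12 = w.num ^ 12 * W.Δ := by
    rw [hwe, div_pow, div_mul_eq_mul_div, eq_div_iff (pow_ne_zero _ hdenQ)] at h12
    exact_mod_cast h12
  have hcop : IsCoprime w.num (w.den : ℤ) := by
    rw [Int.isCoprime_iff_gcd_eq_one]
    have := w.reduced
    rw [Int.gcd, Int.natAbs_natCast]
    exact this
  have d4 : (w.den : ℤ) ∣ W.c₄ := by
    have h1 : (w.den : ℤ) ^ 4 ∣ W.c₄ :=
      (hcop.symm.pow (m := 4) (n := 4)).dvd_of_dvd_mul_left ⟨W'.c₄, by rw [← e4]; ring⟩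
    exact (dvd_pow_self _ (by norm_num)).trans h1
  have d12 : (w.den : ℤ) ∣ W.Δ := by
    have h1 : (w.den : ℤ) ^ 12 ∣ W.Δ :=
      (hcop.symm.pow (m := 12) (n := 12)).dvd_of_dvd_mul_left ⟨W'.Δ, by rw [← e12]; ring⟩
    exact (dvd_pow_self _ (by norm_num)).trans h1
  have hunit : IsUnit (w.den : ℤ) := hco.isUnit_of_dvd' d4 d12
  have hden1 : (w.den : ℤ) = 1 := by
    rcases Int.isUnit_iff.mp hunit with h | h
    · exact h
    · have : (0 : ℤ) ≤ w.den := Int.natCast_nonneg _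
      omega
  rw [hden1] at e12
  have hnum : w.num ≠ 0 := Rat.num_ne_zero.mpr hw0
  have h1 : (1 : ℤ) ≤ |w.num| ^ 12 := one_le_pow₀ (Int.one_le_abs hnum)
  have e : W'.Δ = w.num ^ 12 * W.Δ := by linarith
  rw [e, abs_mul, abs_pow]
  nlinarith [abs_nonneg W.Δ]

/-- exceptional classes of semistable curves -/
def ExSemi (K : Type) [Field K] [NumberField K] (κ c : ℝ) (X : ℕ) : Set (ℤ × ℤ) :=
  {q | ∃ W : WeierstrassCurve ℤ, W.Δ ≠ 0 ∧ IsCoprime W.c₄ W.Δ ∧ TwoK K W ∧ q = (W.c₄, W.c₆) ∧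
    |W.c₄| ^ 3 ≤ (X : ℤ) ^ 6 ∧ W.c₆ ^ 2 ≤ (X : ℤ) ^ 6 ∧
    c * ((∏ p ∈ W.Δ.natAbs.primeFactors, p : ℕ) : ℝ) ^ κ < |(W.Δ : ℝ)|}

theorem condW_le (W : WeierstrassCurve ℤ) (hco : IsCoprime W.c₄ W.Δ) :
    condW W ≤ ∏ p ∈ W.Δ.natAbs.primeFactors, p := by
  unfold condW
  have h1 : ∏ p ∈ W.Δ.natAbs.primeFactors.filter (fun p => 5 ≤ p),
      (if (p : ℤ) ∣ W.c₄ then p ^ 2 else p) =
      ∏ p ∈ W.Δ.natAbs.primeFactors.filter (fun p => 5 ≤ p), p := by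
    refine prod_congr rfl fun p hp => ?_
    rw [mem_filter] at hp
    have hpp := Nat.prime_of_mem_primeFactors hp.1
    have hd : (p : ℤ) ∣ W.Δ := Int.natCast_dvd.mpr (Nat.dvd_of_mem_primeFactors hp.1)
    rw [if_neg]
    intro h4
    have := hco.isUnit_of_dvd' h4 hd
    have h2 := Int.isUnit_iff.mp this
    have := hpp.two_le
    omega
  rw [h1]
  refine Finset.prod_le_prod_of_subset_of_one_le' (filter_subset _ _) ?_
  intro p hp _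
  exact (Nat.prime_of_mem_primeFactors hp).one_lt.le

theorem core_semi (hT : S_T) (hP : S_PARAM) (hC : S_COND) (K : Type) [Field K] [NumberField K]
    (hK : Module.finrank ℚ K = 3) (κ c ε : ℝ) (hκ : 6 ≤ κ) (hc : 0 < c) (hε : 0 < ε) :
    ∃ C : ℝ, 0 < C ∧ ∀ X : ℕ, 1 ≤ X →
      (ExSemi K κ c X).Finite ∧
      ((ExSemi K κ c X).ncard : ℝ) ≤ C * (X : ℝ) ^ (min (1 / 8 + 9 / (2 * κ)) (11 / (2 * κ)) + ε) := by
  obtain ⟨C, hC0, h⟩ := core_mod hT hP hC K hK κ c ε hκ hc hε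
  refine ⟨C, hC0, fun X hX => ?_⟩
  obtain ⟨h1, h2⟩ := h X hX
  have hsub : ExSemi K κ c X ⊆ ExcW (TwoK K) κ c X := by
    rintro q ⟨W, q1, q2, q3, q4, q5, q6, q7⟩
    refine ⟨W, gmin_of_coprime W q1 q2, q3, q4, q5, q6, ?_⟩
    have hrel : 1728 * (W.Δ : ℝ) = (W.c₄ : ℝ) ^ 3 - (W.c₆ : ℝ) ^ 2 := by
      exact_mod_cast W.c_relation
    have e1 : 1728 * |(W.Δ : ℝ)| ≤ |(W.c₄ : ℝ)| ^ 3 + (W.c₆ : ℝ) ^ 2 := by
      calc 1728 * |(W.Δ : ℝ)| = |1728 * (W.Δ : ℝ)| := by rw [abs_mul]; norm_num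
        _ = |(W.c₄ : ℝ) ^ 3 - (W.c₆ : ℝ) ^ 2| := by rw [hrel]
        _ ≤ |(W.c₄ : ℝ) ^ 3| + |(W.c₆ : ℝ) ^ 2| := abs_sub _ _
        _ = _ := by rw [abs_pow, abs_of_nonneg (sq_nonneg (W.c₆ : ℝ))]
    have e2 := le_max_left (|(W.c₄ : ℝ)| ^ 3) ((W.c₆ : ℝ) ^ 2)
    have e3 := le_max_right (|(W.c₄ : ℝ)| ^ 3) ((W.c₆ : ℝ) ^ 2)
    have e4 : 0 ≤ |(W.Δ : ℝ)| := abs_nonneg _
    have e5 : (condW W : ℝ) ≤ ((∏ p ∈ W.Δ.natAbs.primeFactors, p : ℕ) : ℝ) := by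
      exact_mod_cast condW_le W q2
    have e6 : c * (condW W : ℝ) ^ κ ≤
        c * ((∏ p ∈ W.Δ.natAbs.primeFactors, p : ℕ) : ℝ) ^ κ := by
      gcongr
    linarith
  refine ⟨h1.subset hsub, le_trans ?_ h2⟩
  exact_mod_cast Set.ncard_le_ncard hsub h1

end Pool.Agent.W4.CF
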