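import Mathlib

/-!
# Project CF: Szpiro exceptions among curves with a point of order two over a fixed cubic field

Statements of the parts. `K` is a number field; from IDX on it is cubic, `ρ` is an integer of `K`
which is not rational, `ρ³ = Aρ + B`, and `G A B u v = u³ - A u v² - B v³` is the norm of `u - vρ`.
-/

set_option autoImplicit false

namespace Pool.Agent.W4.CF

open NumberField Finset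

/-- the product of the primes of `n` that do not divide `m` -/
def radp (m n : ℕ) : ℕ := ∏ p ∈ n.primeFactors.filter (fun p => ¬ p ∣ m), p

/-- the product of the primes `p` not dividing `m` with `v_p(n) = k` -/
def fk (m n k : ℕ) : ℕ := ∏ p ∈ n.primeFactors.filter (fun p => ¬ p ∣ m ∧ n.factorization p = k), p

/-- the cubic form `N(u - vρ)`, where `ρ³ = Aρ + B` -/
def G (A B u v : ℤ) : ℤ := u ^ 3 - A * u * v ^ 2 - B * v ^ 3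

/-- the final exponent function -/
noncomputable def Bd (Y R : ℝ) : ℝ :=
  min (R ^ ((11 : ℝ) / 12)) (max (R * Y ^ (-((1 : ℝ) / 8))) (R ^ ((3 : ℝ) / 4) * Y ^ ((1 : ℝ) / 8)))

/-- coprime pairs of size between `Y/2` and `Y` -/
def Dy (Y : ℝ) (p : ℤ × ℤ) : Prop :=
  IsCoprime p.1 p.2 ∧ |(p.1 : ℝ)| ≤ Y ∧ |(p.2 : ℝ)| ≤ Y ∧ Y ≤ 2 * max |(p.1 : ℝ)| |(p.2 : ℝ)|

/-- `i` is a multiple of the index of `ℤ[ρ]` -/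
def Idx (K : Type) [Field K] [NumberField K] (ρ : 𝓞 K) (i : ℕ) : Prop :=
  1 ≤ i ∧ ∀ α : 𝓞 K, ∃ x y w : ℤ, (i : 𝓞 K) * α = x + y * ρ + w * ρ ^ 2

/-- `K` is a cubic field, `ρ` is an irrational integer of `K` with `ρ³ = Aρ + B` -/
def Cub (K : Type) [Field K] [NumberField K] (ρ : 𝓞 K) (A B : ℤ) : Prop :=
  Module.finrank ℚ K = 3 ∧ (∀ r : ℚ, (ρ : K) ≠ algebraMap ℚ K r) ∧ ρ ^ 3 = A * ρ + B

/-- DIVS: the number of ideals dividing the positive integer `n`. -/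
def S_DIVS : Prop := ∀ (K : Type) [Field K] [NumberField K] (ε : ℝ), 0 < ε → ∃ C : ℝ, 0 < C ∧
  ∀ n : ℕ, 1 ≤ n → ∀ t : Finset (Ideal (𝓞 K)), (∀ J ∈ t, J ∣ Ideal.span {(n : 𝓞 K)}) →
    (t.card : ℝ) ≤ C * (n : ℝ) ^ ε

/-- RAD: the sum of the inverses of the prime-to-`m` radicals. -/
def S_RAD : Prop := ∀ ε : ℝ, 0 < ε → ∃ C : ℝ, 0 < C ∧ ∀ m N : ℕ, 1 ≤ m → 1 ≤ N →
  ∑ n ∈ Icc 1 N, (1 : ℝ) / (radp m n : ℝ) ≤ C * ((m : ℝ) * N) ^ ε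

/-- TAU: elements of an ideal of nearly minimal norm with bounded conjugates. -/
def S_TAU : Prop := ∀ (K : Type) [Field K] [NumberField K] (c ε : ℝ), 0 < c → 0 < ε →
  ∃ C : ℝ, 0 < C ∧ ∀ I : Ideal (𝓞 K), I ≠ ⊥ → ∀ T : ℝ, 1 ≤ T → ∀ s : Finset (𝓞 K),
    (∀ τ ∈ s, τ ∈ I ∧ τ ≠ 0 ∧ ((Algebra.norm ℤ τ).natAbs : ℝ) ≤ c * (Ideal.absNorm I : ℝ) ∧
      ∀ σ : K →+* ℂ, ‖σ (τ : K)‖ ≤ T) →
    (s.card : ℝ) ≤ C * T ^ ε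

/-- MINK: Minkowski's theorem for an ideal, in all conjugates. -/
def S_MINK : Prop := ∀ (K : Type) [Field K] [NumberField K], ∃ C : ℝ, 1 ≤ C ∧
  ∀ I : Ideal (𝓞 K), I ≠ ⊥ → ∃ δ ∈ I, δ ≠ 0 ∧ ∀ σ : K →+* ℂ,
    ‖σ (δ : K)‖ ≤ C * (Ideal.absNorm I : ℝ) ^ ((1 : ℝ) / Module.finrank ℚ K)

/-- SZ: integers `δ` of bounded size with `L(τ δ^k) = 0`. -/
def S_SZ : Prop := ∀ (K : Type) [Field K] [NumberField K] (k : ℕ), 1 ≤ k → ∃ C : ℝ, 0 < C ∧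
  ∀ (L : K →ₗ[ℚ] ℚ) (τ : K), L ≠ 0 → τ ≠ 0 → ∀ B : ℝ, 1 ≤ B → ∀ s : Finset (𝓞 K),
    (∀ δ ∈ s, L (τ * (δ : K) ^ k) = 0 ∧ ∀ σ : K →+* ℂ, ‖σ (δ : K)‖ ≤ B) →
    (s.card : ℝ) ≤ C * B ^ (Module.finrank ℚ K - 1)

/-- NRM: the norm form. -/
def S_NRM : Prop := ∀ (K : Type) [Field K] [NumberField K] (ρ : 𝓞 K) (A B : ℤ), Cub K ρ A B →
  ∀ u v : ℤ, Algebra.norm ℤ ((u : 𝓞 K) - v * ρ) = G A B u v

/-- IDX: `ℤ[ρ]` has finite index. -/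
def S_IDX : Prop := ∀ (K : Type) [Field K] [NumberField K] (ρ : 𝓞 K) (A B : ℤ), Cub K ρ A B →
  ∃ i : ℕ, Idx K ρ i

/-- LIN: there is a nonzero linear functional that kills `1` and `ρ`. -/
def S_LIN : Prop := ∀ (K : Type) [Field K] [NumberField K] (ρ : 𝓞 K) (A B : ℤ), Cub K ρ A B →
  ∃ L : K →ₗ[ℚ] ℚ, L ≠ 0 ∧ ∀ u v : ℤ, L ((u : K) - v * (ρ : K)) = 0

/-- IDEAL: the factorisation of `u - vρ`. -/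
def S_IDEAL : Prop := ∀ (K : Type) [Field K] [NumberField K] (ρ : 𝓞 K) (A B : ℤ) (i : ℕ),
  Cub K ρ A B → Idx K ρ i →
  (∀ u v : ℤ, Algebra.norm ℤ ((u : 𝓞 K) - v * ρ) = G A B u v) →
  ∀ (u v : ℤ) (c z k : ℕ), IsCoprime u v → 1 ≤ c → 1 ≤ z → 1 ≤ k → Nat.Coprime z (i * c) →
    (G A B u v).natAbs = c * z ^ k →
    ∃ 𝔠 𝔷 : Ideal (𝓞 K), Ideal.absNorm 𝔠 = c ∧ Ideal.absNorm 𝔷 = z ∧
      Ideal.span {(u : 𝓞 K) - v * ρ} = 𝔠 * 𝔷 ^ k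

/-- GRP: two pairs with the same ideal are proportional modulo `q`. -/
def S_GRP : Prop := ∀ (K : Type) [Field K] [NumberField K] (ρ : 𝓞 K) (A B : ℤ) (i : ℕ),
  Cub K ρ A B → Idx K ρ i → ∀ (u v u' v' : ℤ) (q : ℕ), 1 ≤ q → IsCoprime u v →
    (q : ℤ) ∣ G A B u v →
    Ideal.span {(q : 𝓞 K), (u : 𝓞 K) - v * ρ} = Ideal.span {(q : 𝓞 K), (u' : 𝓞 K) - v' * ρ} →
    (q : ℤ) ∣ i * (u * v' - u' * v)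

/-- GEO: the geometry of pairs with small value and pairwise divisible determinants. -/
def S_GEO : Prop := ∀ (r : Fin 3 → ℂ), Function.Injective r → ∀ (c : ℝ) (i : ℕ), 0 < c → 1 ≤ i →
  ∃ C : ℝ, 0 < C ∧ ∀ Y : ℝ, 1 ≤ Y → ∀ q : ℕ, 1 ≤ q → ∀ s : Finset (ℤ × ℤ),
    (∀ p ∈ s, Dy Y p ∧ ‖∏ j, ((p.1 : ℂ) - p.2 * r j)‖ ≤ c * Y * q) →
    (∀ p ∈ s, ∀ p' ∈ s, (q : ℤ) ∣ i * (p.1 * p'.2 - p'.1 * p.2)) →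
    (s.card : ℝ) ≤ C

/-- ROOTS: the cubic form as a product of complex linear forms. -/
def S_ROOTS : Prop := ∀ (K : Type) [Field K] [NumberField K] (ρ : 𝓞 K) (A B : ℤ), Cub K ρ A B →
  ∃ r : Fin 3 → ℂ, Function.Injective r ∧
    ∀ u v : ℤ, ((G A B u v : ℤ) : ℂ) = ∏ j, ((u : ℂ) - v * r j)

/-- A: pairs such that a given large divisor divides the value. -/
def S_A : Prop := ∀ (K : Type) [Field K] [NumberField K] (ρ : 𝓞 K) (A B : ℤ), Cub K ρ A B →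
  ∀ c ε : ℝ, 0 < c → 0 < ε → ∃ C : ℝ, 0 < C ∧ ∀ Y : ℝ, 1 ≤ Y → ∀ q : ℕ, 1 ≤ q →
    ∀ s : Finset (ℤ × ℤ), (∀ p ∈ s, Dy Y p ∧ (q : ℤ) ∣ G A B p.1 p.2 ∧
      |((G A B p.1 p.2 : ℤ) : ℝ)| ≤ c * Y * q) →
    (s.card : ℝ) ≤ C * (q : ℝ) ^ ε

/-- B: pairs such that the value is a given number times a `k`-th power. -/
def S_B : Prop := ∀ (K : Type) [Field K] [NumberField K] (ρ : 𝓞 K) (A B : ℤ) (i : ℕ),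
  Cub K ρ A B → Idx K ρ i → ∀ (k : ℕ) (ε : ℝ), 1 ≤ k → 0 < ε →
  ∃ C : ℝ, 0 < C ∧ ∀ Y Z : ℝ, 1 ≤ Y → 1 ≤ Z → ∀ c : ℕ, 1 ≤ c → ∀ s : Finset (ℤ × ℤ),
    (∀ p ∈ s, IsCoprime p.1 p.2 ∧ |(p.1 : ℝ)| ≤ Y ∧ |(p.2 : ℝ)| ≤ Y ∧
      ∃ z : ℕ, 1 ≤ z ∧ (z : ℝ) ≤ Z ∧ Nat.Coprime z (i * c) ∧
        (G A B p.1 p.2).natAbs = c * z ^ k) →
    (s.card : ℝ) ≤ C * (Y * c) ^ ε * Z ^ ((2 : ℝ) / 3)

/-- SEL: the choice between the two methods. -/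
def S_SEL : Prop := ∀ c0 c1 ε : ℝ, 0 < c0 → 0 < c1 → 0 < ε → ∃ (c2 C : ℝ) (k0 : ℕ), 0 < c2 ∧ 0 < C ∧
  ∀ (m f : ℕ) (Y R : ℝ), 1 ≤ m → 1 ≤ f → 1 ≤ Y → 1 ≤ R → (f : ℝ) ≤ c0 * Y ^ 3 →
    (radp m f : ℝ) ≤ R → R ≤ c1 * Y →
    (∃ q : ℕ, q ∣ f ∧ (f : ℝ) ≤ c2 * Y * q ∧ (radp m q : ℝ) ≤ C * Y ^ ε * Bd Y R) ∨
    (∃ k : ℕ, 2 ≤ k ∧ k ≤ k0 ∧
      (radp m f : ℝ) ≤ C * Y ^ ε * Bd Y R * (fk m f k : ℝ) ^ ((1 : ℝ) / 3))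

/-- T: the number of coprime pairs in a dyadic box whose value has a small radical. -/
def S_T : Prop := ∀ (K : Type) [Field K] [NumberField K] (ρ : 𝓞 K) (A B : ℤ), Cub K ρ A B →
  ∃ i : ℕ, 1 ≤ i ∧ ∀ c1 ε : ℝ, 0 < c1 → 0 < ε → ∃ C : ℝ, 0 < C ∧
  ∀ (m : ℕ) (Y R : ℝ), 1 ≤ m → i ∣ m → 1 ≤ Y → 1 ≤ R → R ≤ c1 * Y →
    ∀ s : Finset (ℤ × ℤ), (∀ p ∈ s, Dy Y p ∧ (radp m (G A B p.1 p.2).natAbs : ℝ) ≤ R) →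
    (s.card : ℝ) ≤ C * ((m : ℝ) * Y) ^ ε * Bd Y R

/-- the first coefficient of the cubic of `(uθ₀ + v(3θ₀² - 2a₀)) / D₀` -/
def Fa (a0 b0 u v : ℤ) : ℤ := a0 * u ^ 2 + 9 * b0 * u * v + 3 * a0 ^ 2 * v ^ 2

/-- the second coefficient of the cubic of `(uθ₀ + v(3θ₀² - 2a₀)) / D₀` -/
def Fb (a0 b0 u v : ℤ) : ℤ :=
  b0 * u ^ 3 + 2 * a0 ^ 2 * u ^ 2 * v + 9 * a0 * b0 * u * v ^ 2 +
    (27 * b0 ^ 2 - 2 * a0 ^ 3) * v ^ 3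

/-- PARAM: all irrational integers of trace zero of a cubic field in terms of one. -/
def S_PARAM : Prop := ∀ (K : Type) [Field K] [NumberField K], Module.finrank ℚ K = 3 →
  ∀ (a0 b0 : ℤ) (θ0 : K), (∀ r : ℚ, θ0 ≠ algebraMap ℚ K r) → θ0 ^ 3 = a0 * θ0 + b0 →
  4 * a0 ^ 3 - 27 * b0 ^ 2 ≠ 0 ∧
  ∃ C : ℝ, 0 < C ∧ ∀ (a b : ℤ) (θ : K), (∀ r : ℚ, θ ≠ algebraMap ℚ K r) → θ ^ 3 = a * θ + b →
    ∃ u v : ℤ, (4 * a0 ^ 3 - 27 * b0 ^ 2) ^ 2 * a = Fa a0 b0 u v ∧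
      (4 * a0 ^ 3 - 27 * b0 ^ 2) ^ 3 * b = Fb a0 b0 u v ∧
      ∀ H : ℝ, 0 ≤ H → |(a : ℝ)| ≤ H ^ 2 → |(b : ℝ)| ≤ H ^ 3 →
        |(u : ℝ)| ≤ C * H ∧ |(v : ℝ)| ≤ C * H

end Pool.Agent.W4.CF
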