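import Pool.Agent.W4.CF.Stms

/-!
# Project CD: the truncated counting function of every reduced divisor of degree three on `P¹` over `ℚ`

`G A B u v = u³ - A u v² - B v³` is the form of the first part; now `X³ - AX - B` may be reducible,
only `4A³ - 27B² ≠ 0` is needed.
-/

set_option autoImplicit false

namespace Pool.Agent.W4.CF

open NumberField Finset

/-- property (A) of the form `G A B` -/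
def HA (A B : ℤ) : Prop := ∀ c ε : ℝ, 0 < c → 0 < ε → ∃ C : ℝ, 0 < C ∧ ∀ Y : ℝ, 1 ≤ Y →
  ∀ q : ℕ, 1 ≤ q → ∀ s : Finset (ℤ × ℤ), (∀ p ∈ s, Dy Y p ∧ (q : ℤ) ∣ G A B p.1 p.2 ∧
      |((G A B p.1 p.2 : ℤ) : ℝ)| ≤ c * Y * q) →
    (s.card : ℝ) ≤ C * (q : ℝ) ^ ε

/-- property (B) of the form `G A B` -/
def HB (A B : ℤ) (i : ℕ) : Prop := ∀ (k : ℕ) (ε : ℝ), 1 ≤ k → 0 < ε →
  ∃ C : ℝ, 0 < C ∧ ∀ Y Z : ℝ, 1 ≤ Y → 1 ≤ Z → ∀ c : ℕ, 1 ≤ c → ∀ s : Finset (ℤ × ℤ),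
    (∀ p ∈ s, IsCoprime p.1 p.2 ∧ |(p.1 : ℝ)| ≤ Y ∧ |(p.2 : ℝ)| ≤ Y ∧
      ∃ z : ℕ, 1 ≤ z ∧ (z : ℝ) ≤ Z ∧ Nat.Coprime z (i * c) ∧
        (G A B p.1 p.2).natAbs = c * z ^ k) →
    (s.card : ℝ) ≤ C * (Y * c) ^ ε * Z ^ ((2 : ℝ) / 3)

/-- the conclusion for the form `G A B` -/
def HT (A B : ℤ) (i : ℕ) : Prop := ∀ c1 ε : ℝ, 0 < c1 → 0 < ε → ∃ C : ℝ, 0 < C ∧
  ∀ (m : ℕ) (Y R : ℝ), 1 ≤ m → i ∣ m → 1 ≤ Y → 1 ≤ R → R ≤ c1 * Y →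
    ∀ s : Finset (ℤ × ℤ), (∀ p ∈ s, Dy Y p ∧ G A B p.1 p.2 ≠ 0 ∧
      (radp m (G A B p.1 p.2).natAbs : ℝ) ≤ R) →
    (s.card : ℝ) ≤ C * ((m : ℝ) * Y) ^ ε * Bd Y R

/-- TG: (A) and (B) imply the conclusion, for every form. -/
def S_TG : Prop := ∀ (A B : ℤ) (i : ℕ), 1 ≤ i → HA A B → HB A B i → HT A B i

/-- ROOTQ: the number of roots modulo `q`. -/
def S_ROOTQ : Prop := ∀ A B : ℤ, 4 * A ^ 3 - 27 * B ^ 2 ≠ 0 → ∀ ε : ℝ, 0 < ε →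
  ∃ C : ℝ, 0 < C ∧ ∀ q : ℕ, 1 ≤ q →
    (((range q).filter (fun t : ℕ => (q : ℤ) ∣ (t : ℤ) ^ 3 - A * t - B)).card : ℝ) ≤
      C * (q : ℝ) ^ ε

/-- AG: property (A) for every form with nonzero discriminant. -/
def S_AG : Prop := ∀ A B : ℤ, 4 * A ^ 3 - 27 * B ^ 2 ≠ 0 → HA A B

/-- SZC: integers `δ` of bounded size with `L(τ δ^k)` equal to a given number. -/
def S_SZC : Prop := ∀ (K : Type) [Field K] [NumberField K] (k : ℕ), 1 ≤ k → ∃ C : ℝ, 0 < C ∧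
  ∀ (L : K →ₗ[ℚ] ℚ) (τ : K) (c : ℚ), L ≠ 0 → τ ≠ 0 → ∀ B : ℝ, 1 ≤ B → ∀ s : Finset (𝓞 K),
    (∀ δ ∈ s, L (τ * (δ : K) ^ k) = c ∧ ∀ σ : K →+* ℂ, ‖σ (δ : K)‖ ≤ B) →
    (s.card : ℝ) ≤ C * B ^ (Module.finrank ℚ K - 1)

/-- BOX: integers of bounded size. -/
def S_BOX : Prop := ∀ (K : Type) [Field K] [NumberField K], ∃ C : ℝ, 0 < C ∧
  ∀ B : ℝ, 1 ≤ B → ∀ s : Finset (𝓞 K), (∀ δ ∈ s, ∀ σ : K →+* ℂ, ‖σ (δ : K)‖ ≤ B) →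
    (s.card : ℝ) ≤ C * B ^ (Module.finrank ℚ K)

/-- `K` is a quadratic field, `ρ` an irrational integer of `K` with `ρ² + rρ + (r² - A) = 0` -/
def Quad (K : Type) [Field K] [NumberField K] (ρ : 𝓞 K) (r A : ℤ) : Prop :=
  Module.finrank ℚ K = 2 ∧ (∀ x : ℚ, (ρ : K) ≠ algebraMap ℚ K x) ∧
    ρ ^ 2 + r * ρ + (r ^ 2 - A) = 0

/-- QFAC: the factorisation of `u - vρ` in the quadratic case (norm, index, ideals). -/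
def S_QFAC : Prop := ∀ (K : Type) [Field K] [NumberField K] (ρ : 𝓞 K) (r A : ℤ), Quad K ρ r A →
  ∃ i : ℕ, 1 ≤ i ∧
  (∀ u v : ℤ, Algebra.norm ℤ ((u : 𝓞 K) - v * ρ) = u ^ 2 + r * u * v + (r ^ 2 - A) * v ^ 2) ∧
  ∀ (u v : ℤ) (c z k : ℕ), IsCoprime u v → 1 ≤ c → 1 ≤ z → 1 ≤ k → Nat.Coprime z (i * c) →
    (u ^ 2 + r * u * v + (r ^ 2 - A) * v ^ 2).natAbs = c * z ^ k →
    ∃ 𝔠 𝔷 : Ideal (𝓞 K), Ideal.absNorm 𝔠 = c ∧ Ideal.absNorm 𝔷 = z ∧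
      Ideal.span {(u : 𝓞 K) - v * ρ} = 𝔠 * 𝔷 ^ k

/-- BQ: property (B) for a product of a linear and an irreducible quadratic form. -/
def S_BQ : Prop := ∀ (K : Type) [Field K] [NumberField K] (ρ : 𝓞 K) (r A : ℤ), Quad K ρ r A →
  ∃ i : ℕ, 1 ≤ i ∧ HB A (r ^ 3 - A * r) i

/-- BL: property (B) for a product of three linear forms. -/
def S_BL : Prop := ∀ r1 r2 r3 : ℤ, r1 ≠ r2 → r1 ≠ r3 → r2 ≠ r3 → r1 + r2 + r3 = 0 →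
  ∃ i : ℕ, 1 ≤ i ∧ HB (-(r1 * r2 + r1 * r3 + r2 * r3)) (r1 * r2 * r3) i

/-- FAC: the three types. -/
def S_FAC : Prop := ∀ A B : ℤ, 4 * A ^ 3 - 27 * B ^ 2 ≠ 0 →
  (∃ (K : Type) (_ : Field K) (_ : NumberField K) (ρ : 𝓞 K), Cub K ρ A B) ∨
  (∃ (K : Type) (_ : Field K) (_ : NumberField K) (ρ : 𝓞 K) (r : ℤ), Quad K ρ r A ∧
    B = r ^ 3 - A * r) ∨
  (∃ r1 r2 r3 : ℤ, r1 ≠ r2 ∧ r1 ≠ r3 ∧ r2 ≠ r3 ∧ r1 + r2 + r3 = 0 ∧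
    A = -(r1 * r2 + r1 * r3 + r2 * r3) ∧ B = r1 * r2 * r3)

/-- a binary cubic form -/
def F3 (a b c d x y : ℤ) : ℤ := a * x ^ 3 + b * x ^ 2 * y + c * x * y ^ 2 + d * y ^ 3

/-- its discriminant -/
def disc3 (a b c d : ℤ) : ℤ :=
  b ^ 2 * c ^ 2 - 4 * a * c ^ 3 - 4 * b ^ 3 * d + 18 * a * b * c * d - 27 * a ^ 2 * d ^ 2

/-- RED: reduction of a general form to a form `G A B`: a map on coprime pairs. -/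
def S_RED : Prop := ∀ a b c d : ℤ, disc3 a b c d ≠ 0 → ∃ (A B : ℤ) (M : ℕ) (C : ℝ)
  (φ : ℤ × ℤ → ℤ × ℤ), 4 * A ^ 3 - 27 * B ^ 2 ≠ 0 ∧ 1 ≤ M ∧ 1 ≤ C ∧
    ∀ p : ℤ × ℤ, IsCoprime p.1 p.2 → F3 a b c d p.1 p.2 ≠ 0 →
      IsCoprime (φ p).1 (φ p).2 ∧ G A B (φ p).1 (φ p).2 ≠ 0 ∧
      max |((φ p).1 : ℝ)| |((φ p).2 : ℝ)| ≤ C * max |(p.1 : ℝ)| |(p.2 : ℝ)| ∧
      max |(p.1 : ℝ)| |(p.2 : ℝ)| ≤ C * max |((φ p).1 : ℝ)| |((φ p).2 : ℝ)| ∧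
      (∀ q : ℕ, q.Prime → ¬ q ∣ M → (q : ℤ) ∣ G A B (φ p).1 (φ p).2 →
        (q : ℤ) ∣ F3 a b c d p.1 p.2) ∧
      ∀ p' : ℤ × ℤ, IsCoprime p'.1 p'.2 → φ p = φ p' → p' = p ∨ p' = (-p.1, -p.2)

end Pool.Agent.W4.CF
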