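import Pool.Agent.W4.CF.Main
import Pool.Agent.W578.CF.DIVS
import Pool.Agent.W335.CF.RAD
import Pool.Agent.W230.CF.TAU
import Pool.Agent.W721.CF.MINK
import Pool.Agent.W347.CF.SZ
import Pool.Agent.W721.CF.NRM
import Pool.Agent.W762.CF.IDEAL
import Pool.Agent.W721.CF.GRP
import Pool.Agent.W397.CF.GEO
import Pool.Agent.W64.CF.A
import Pool.Agent.W636.CF.B
import Pool.Agent.W540.CF.SEL
import Pool.Agent.W29.CF.PARAM
import Pool.Agent.W320.CF.COND
import Pool.Agent.W597.CF.T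

/-!
# Project CF: all parts together
-/

set_option autoImplicit false

namespace Pool.Agent.W4.CF

theorem hA : S_A :=
  Pool.Agent.W64.CF.t_A Pool.Agent.W578.CF.t_DIVS Pool.Agent.W721.CF.t_GRP
    Pool.Agent.W397.CF.t_GEO Pool.Agent.W721.CF.t_ROOTS Pool.Agent.W721.CF.t_IDX

theorem hB : S_B :=
  t_B Pool.Agent.W578.CF.t_DIVS Pool.Agent.W230.CF.t_TAU Pool.Agent.W721.CF.t_MINK
    Pool.Agent.W347.CF.t_SZ Pool.Agent.W721.CF.t_LIN Pool.Agent.W762.CF.t_IDEAL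
    Pool.Agent.W721.CF.t_NRM

theorem hT : S_T :=
  Pool.Agent.W597.CF.t_T hA hB Pool.Agent.W540.CF.t_SEL Pool.W335.CF.t_RAD
    Pool.Agent.W721.CF.t_IDX Pool.Agent.W721.CF.t_NRM

theorem hP : S_PARAM := Pool.Agent.W29.CF.t_PARAM

theorem hC : S_COND := W320.CF.t_COND

end Pool.Agent.W4.CF
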