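import Pool.Agent.W4.CF.Num

/-!
# Project CF: the count of the exceptional models
-/

set_option autoImplicit false

namespace Pool.Agent.W4.CF

open NumberField Finset

/-- `x³ - a x - b` has an irrational root in `K` -/
def HasK (K : Type) [Field K] [NumberField K] (a b : ℤ) : Prop :=
  ∃ θ : K, (∀ r : ℚ, θ ≠ algebraMap ℚ K r) ∧ θ ^ 3 = a * θ + b

/-- the exceptional models -/
def ExK (K : Type) [Field K] [NumberField K] (κ K0 : ℝ) (X : ℕ) : Set (ℤ × ℤ) :=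
  {q | IsMinM q.1 q.2 ∧ HasK K q.1 q.2 ∧ |q.1| ≤ (X : ℤ) ^ 2 ∧ |q.2| ≤ (X : ℤ) ^ 3 ∧
    (condM q.1 q.2 : ℝ) ^ κ < K0 * max (|(q.1 : ℝ)| ^ 3) ((q.2 : ℝ) ^ 2)}

theorem exK_finite (K : Type) [Field K] [NumberField K] (κ K0 : ℝ) (X : ℕ) :
    (ExK K κ K0 X).Finite := by
  refine ((Finset.finite_toSet (Icc (-(X : ℤ) ^ 2) ((X : ℤ) ^ 2) ×ˢ
    Icc (-(X : ℤ) ^ 3) ((X : ℤ) ^ 3)))).subset ?_
  rintro ⟨a, b⟩ ⟨-, -, h1, h2, -⟩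
  simp only at h1 h2
  rw [Finset.mem_coe, mem_product, mem_Icc, mem_Icc]
  exact ⟨abs_le.mp h1, abs_le.mp h2⟩

/-- the integer `3θ₀` -/
theorem rho (K : Type) [Field K] [NumberField K] (hK : Module.finrank ℚ K = 3) (a0 b0 : ℤ) (θ0 : K)
    (hθ : ∀ r : ℚ, θ0 ≠ algebraMap ℚ K r) (h0 : θ0 ^ 3 = a0 * θ0 + b0) :
    ∃ ρ : 𝓞 K, Cub K ρ (9 * a0) (27 * b0) := by
  have hint : IsIntegral ℤ (3 * θ0) := by
    refine ⟨Polynomial.X ^ 3 - (Polynomial.C (9 * a0) * Polynomial.X + Polynomial.C (27 * b0)),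
      ?_, ?_⟩
    · apply Polynomial.monic_X_pow_sub
      refine lt_of_le_of_lt (Polynomial.degree_linear_le) ?_
      norm_num
    · simp only [Polynomial.eval₂_sub, Polynomial.eval₂_pow, Polynomial.eval₂_X,
        Polynomial.eval₂_add, Polynomial.eval₂_mul, Polynomial.eval₂_C]
      push_cast
      simp only [map_mul, map_ofNat, eq_intCast]
      linear_combination 27 * h0
  refine ⟨⟨3 * θ0, hint⟩, hK, ?_, ?_⟩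
  · intro r hr
    have h1 : 3 * θ0 = algebraMap ℚ K r := hr
    apply hθ (r / 3)
    rw [map_div₀, ← h1, map_ofNat]
    field_simp
  · apply RingOfIntegers.ext
    push_cast
    show (3 * θ0) ^ 3 = (9 * a0) * (3 * θ0) + 27 * b0
    linear_combination 27 * h0

theorem radp_pos (m n : ℕ) : 1 ≤ radp m n := by
  unfold radp
  apply Nat.one_le_iff_ne_zero.mpr
  rw [Finset.prod_ne_zero_iff]
  intro p hp
  exact (Nat.prime_of_mem_primeFactors (mem_filter.mp hp).1).ne_zero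

theorem radp_anti {m m' : ℕ} (h : m ∣ m') (n : ℕ) : radp m' n ≤ radp m n := by
  unfold radp
  refine Finset.prod_le_prod_of_subset_of_one_le' ?_ ?_
  · intro p hp
    rw [mem_filter] at hp ⊢
    exact ⟨hp.1, fun hd => hp.2 (hd.trans h)⟩
  · intro p hp _
    exact (Nat.prime_of_mem_primeFactors (mem_filter.mp hp).1).one_lt.le

theorem form_size (a0 b0 : ℤ) : ∃ C : ℝ, 1 ≤ C ∧ ∀ (a b U V : ℤ) (H : ℝ),
    4 * a0 ^ 3 - 27 * b0 ^ 2 ≠ 0 →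
    (4 * a0 ^ 3 - 27 * b0 ^ 2) ^ 2 * a = Fa a0 b0 U V →
    (4 * a0 ^ 3 - 27 * b0 ^ 2) ^ 3 * b = Fb a0 b0 U V →
    |(U : ℝ)| ≤ H → |(V : ℝ)| ≤ H → max (|(a : ℝ)| ^ 3) ((b : ℝ) ^ 2) ≤ C * H ^ 6 := by
  set A : ℝ := |(a0 : ℝ)| + 9 * |(b0 : ℝ)| + 3 * |(a0 : ℝ)| ^ 2 with hA
  set B : ℝ := |(b0 : ℝ)| + 2 * |(a0 : ℝ)| ^ 2 + 9 * |(a0 : ℝ)| * |(b0 : ℝ)| +
    (27 * |(b0 : ℝ)| ^ 2 + 2 * |(a0 : ℝ)| ^ 3) with hB
  have hA0 : 0 ≤ A := by positivity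
  have hB0 : 0 ≤ B := by positivity
  refine ⟨max 1 (max (A ^ 3) (B ^ 2)), le_max_left _ _, ?_⟩
  intro a b U V H hD ha hb hU hV
  have hH : 0 ≤ H := (abs_nonneg _).trans hU
  set D : ℤ := 4 * a0 ^ 3 - 27 * b0 ^ 2 with hDdef
  have hD1 : (1 : ℝ) ≤ |(D : ℝ)| := by
    have : (1 : ℤ) ≤ |D| := Int.one_le_abs hD
    exact_mod_cast this
  have haR : (D : ℝ) ^ 2 * a = a0 * (U : ℝ) ^ 2 + 9 * b0 * U * V + 3 * a0 ^ 2 * V ^ 2 := by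
    have := ha
    unfold Fa at this
    exact_mod_cast this
  have hbR : (D : ℝ) ^ 3 * b = b0 * (U : ℝ) ^ 3 + 2 * a0 ^ 2 * U ^ 2 * V +
      9 * a0 * b0 * U * V ^ 2 + (27 * b0 ^ 2 - 2 * a0 ^ 3) * V ^ 3 := by
    have := hb
    unfold Fb at this
    exact_mod_cast this
  have h1 : |(a : ℝ)| ≤ A * H ^ 2 := by
    calc |(a : ℝ)| ≤ |(D : ℝ)| ^ 2 * |(a : ℝ)| :=
          le_mul_of_one_le_left (abs_nonneg _) (one_le_pow₀ hD1)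
      _ = |(D : ℝ) ^ 2 * a| := by rw [abs_mul, abs_pow]
      _ = |a0 * (U : ℝ) ^ 2 + 9 * b0 * U * V + 3 * a0 ^ 2 * V ^ 2| := by rw [haR]
      _ ≤ |a0 * (U : ℝ) ^ 2| + |9 * b0 * (U : ℝ) * V| + |3 * a0 ^ 2 * (V : ℝ) ^ 2| :=
          abs_add_three _ _ _
      _ = |(a0 : ℝ)| * |(U : ℝ)| ^ 2 + 9 * |(b0 : ℝ)| * |(U : ℝ)| * |(V : ℝ)| +
            3 * |(a0 : ℝ)| ^ 2 * |(V : ℝ)| ^ 2 := by
          simp only [abs_mul, abs_pow]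
          norm_num
      _ ≤ |(a0 : ℝ)| * H ^ 2 + 9 * |(b0 : ℝ)| * H * H + 3 * |(a0 : ℝ)| ^ 2 * H ^ 2 := by gcongr
      _ = A * H ^ 2 := by rw [hA]; ring
  have h2 : |(b : ℝ)| ≤ B * H ^ 3 := by
    calc |(b : ℝ)| ≤ |(D : ℝ)| ^ 3 * |(b : ℝ)| :=
          le_mul_of_one_le_left (abs_nonneg _) (one_le_pow₀ hD1)
      _ = |(D : ℝ) ^ 3 * b| := by rw [abs_mul, abs_pow]
      _ = |b0 * (U : ℝ) ^ 3 + 2 * a0 ^ 2 * U ^ 2 * V +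
            9 * a0 * b0 * U * V ^ 2 + (27 * b0 ^ 2 - 2 * a0 ^ 3) * V ^ 3| := by rw [hbR]
      _ ≤ |b0 * (U : ℝ) ^ 3 + 2 * a0 ^ 2 * U ^ 2 * V + 9 * a0 * b0 * U * V ^ 2| +
            |(27 * (b0 : ℝ) ^ 2 - 2 * a0 ^ 3) * V ^ 3| := abs_add_le _ _
      _ ≤ (|b0 * (U : ℝ) ^ 3| + |2 * a0 ^ 2 * (U : ℝ) ^ 2 * V| + |9 * a0 * b0 * (U : ℝ) * V ^ 2|) +
            |(27 * (b0 : ℝ) ^ 2 - 2 * a0 ^ 3) * V ^ 3| := by
          gcongr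
          exact abs_add_three _ _ _
      _ = (|(b0 : ℝ)| * |(U : ℝ)| ^ 3 + 2 * |(a0 : ℝ)| ^ 2 * |(U : ℝ)| ^ 2 * |(V : ℝ)| +
            9 * |(a0 : ℝ)| * |(b0 : ℝ)| * |(U : ℝ)| * |(V : ℝ)| ^ 2) +
            |27 * (b0 : ℝ) ^ 2 - 2 * a0 ^ 3| * |(V : ℝ)| ^ 3 := by
          simp only [abs_mul, abs_pow]
          norm_num
      _ ≤ (|(b0 : ℝ)| * H ^ 3 + 2 * |(a0 : ℝ)| ^ 2 * H ^ 2 * H +
            9 * |(a0 : ℝ)| * |(b0 : ℝ)| * H * H ^ 2) +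
            (27 * |(b0 : ℝ)| ^ 2 + 2 * |(a0 : ℝ)| ^ 3) * H ^ 3 := by
          have : |27 * (b0 : ℝ) ^ 2 - 2 * a0 ^ 3| ≤ 27 * |(b0 : ℝ)| ^ 2 + 2 * |(a0 : ℝ)| ^ 3 := by
            calc |27 * (b0 : ℝ) ^ 2 - 2 * a0 ^ 3| ≤ |27 * (b0 : ℝ) ^ 2| + |2 * (a0 : ℝ) ^ 3| :=
                  abs_sub _ _
              _ = _ := by
                  simp only [abs_mul, abs_pow]
                  norm_num
          gcongr
      _ = B * H ^ 3 := by rw [hB]; ring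
  refine max_le ?_ ?_
  · calc |(a : ℝ)| ^ 3 ≤ (A * H ^ 2) ^ 3 := pow_le_pow_left₀ (abs_nonneg _) h1 3
      _ = A ^ 3 * H ^ 6 := by ring
      _ ≤ max 1 (max (A ^ 3) (B ^ 2)) * H ^ 6 := by
          gcongr
          exact (le_max_left _ _).trans (le_max_right _ _)
  · calc (b : ℝ) ^ 2 = |(b : ℝ)| ^ 2 := (sq_abs _).symm
      _ ≤ (B * H ^ 3) ^ 2 := pow_le_pow_left₀ (abs_nonneg _) h2 2
      _ = B ^ 2 * H ^ 6 := by ring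
      _ ≤ max 1 (max (A ^ 3) (B ^ 2)) * H ^ 6 := by
          gcongr
          exact (le_max_right _ _).trans (le_max_right _ _)

end Pool.Agent.W4.CF
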