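import Pool.Agent.W4.CF.Stms3
import Pool.Agent.W4.CF.Core

/-!
# Project CD: the final summation
-/

set_option autoImplicit false

namespace Pool.Agent.W4.CF

open Finset

/-- the truncated counting function outside `S` -/
noncomputable def N1 (S : Finset ℕ) (n : ℤ) : ℝ :=
  ∑ p ∈ n.natAbs.primeFactors.filter (fun p => p ∉ S), Real.log p

/-- the exceptional coprime pairs -/
def E3 (a b c d : ℤ) (S : Finset ℕ) (lam c0 X : ℝ) : Set (ℤ × ℤ) :=
  {p | IsCoprime p.1 p.2 ∧ F3 a b c d p.1 p.2 ≠ 0 ∧ max |(p.1 : ℝ)| |(p.2 : ℝ)| ≤ X ∧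
    N1 S (F3 a b c d p.1 p.2) ≤ lam * Real.log (max |(p.1 : ℝ)| |(p.2 : ℝ)|) + c0}

theorem e3_finite (a b c d : ℤ) (S : Finset ℕ) (lam c0 X : ℝ) : (E3 a b c d S lam c0 X).Finite := by
  refine ((Finset.finite_toSet (Icc (-⌊X⌋) ⌊X⌋ ×ˢ Icc (-⌊X⌋) ⌊X⌋))).subset ?_
  rintro ⟨x, y⟩ ⟨-, -, h, -⟩
  simp only at h
  have hx : |x| ≤ ⌊X⌋ := by
    rw [Int.le_floor]
    push_cast
    exact (le_max_left _ _).trans h
  have hy : |y| ≤ ⌊X⌋ := by
    rw [Int.le_floor]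
    push_cast
    exact (le_max_right _ _).trans h
  rw [Finset.mem_coe, mem_product, mem_Icc, mem_Icc]
  exact ⟨abs_le.mp hx, abs_le.mp hy⟩

theorem log_boundR (c η : ℝ) (hc : 1 ≤ c) (hη : 0 < η) : ∃ C : ℝ, 0 < C ∧ ∀ X : ℝ, 1 ≤ X →
    ((Nat.log 2 ⌊c * X⌋₊ + 1 : ℕ) : ℝ) ≤ C * X ^ η := by
  have h2 : 0 < Real.log 2 := Real.log_pos (by norm_num)
  refine ⟨c ^ η / (η * Real.log 2) + 1, by positivity, fun X hX1 => ?_⟩
  have hcX : 1 ≤ c * X := by nlinarith
  set n := ⌊c * X⌋₊ with hn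
  have hn1 : 1 ≤ n := by
    rw [hn, Nat.one_le_floor_iff]
    exact hcX
  have hlog : (Nat.log 2 n : ℝ) ≤ Real.log n / Real.log 2 := by
    rw [le_div_iff₀ h2, ← Real.log_pow]
    apply Real.log_le_log (by positivity)
    exact_mod_cast Nat.pow_log_le_self 2 (by omega)
  have hn2 : (n : ℝ) ≤ c * X := Nat.floor_le (by linarith)
  have hlog2 : Real.log n ≤ (c * X) ^ η / η := by
    calc Real.log n ≤ Real.log (c * X) := Real.log_le_log (by exact_mod_cast hn1) hn2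
      _ ≤ _ := Real.log_le_rpow_div (by linarith) hη
  have h3 : X ^ η ≥ 1 := Real.one_le_rpow hX1 hη.le
  push_cast
  calc (Nat.log 2 n : ℝ) + 1 ≤ (c * X) ^ η / η / Real.log 2 + 1 := by
        have : Real.log n / Real.log 2 ≤ (c * X) ^ η / η / Real.log 2 := by gcongr
        linarith
    _ = c ^ η / (η * Real.log 2) * X ^ η + 1 := by
        rw [Real.mul_rpow (by linarith) (by linarith), div_div]
        ring
    _ ≤ (c ^ η / (η * Real.log 2) + 1) * X ^ η := by linarith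

/-- the exponent -/
noncomputable def ex3 (lam : ℝ) : ℝ := min (11 * lam / 12) ((6 * lam + 1) / 8)

theorem ex3_nonneg (lam : ℝ) (h : 0 ≤ lam) : 0 ≤ ex3 lam := le_min (by positivity) (by positivity)

theorem bd3 (C Y lam : ℝ) (hC : 1 ≤ C) (hY : 1 ≤ Y) (h1 : lam ≤ 1) :
    Bd Y (C * Y ^ lam) ≤ C * Y ^ ex3 lam := by
  have hC0 : 0 < C := by linarith
  have hY0 : 0 < Y := by linarith
  have hA : (C * Y ^ lam) ^ ((11 : ℝ) / 12) ≤ C * Y ^ (11 * lam / 12) := by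
    rw [Real.mul_rpow hC0.le (by positivity), ← Real.rpow_mul hY0.le]
    have e1 : C ^ ((11 : ℝ) / 12) ≤ C := by
      calc C ^ ((11 : ℝ) / 12) ≤ C ^ (1 : ℝ) :=
            Real.rpow_le_rpow_of_exponent_le hC (by norm_num)
        _ = C := Real.rpow_one _
    have e2 : lam * (11 / 12) = 11 * lam / 12 := by ring
    rw [e2]
    gcongr
  have hB : max (C * Y ^ lam * Y ^ (-((1 : ℝ) / 8)))
      ((C * Y ^ lam) ^ ((3 : ℝ) / 4) * Y ^ ((1 : ℝ) / 8)) ≤ C * Y ^ ((6 * lam + 1) / 8) := by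
    apply max_le
    · rw [mul_assoc, ← Real.rpow_add hY0]
      gcongr
      linarith
    · rw [Real.mul_rpow hC0.le (by positivity), ← Real.rpow_mul hY0.le, mul_assoc,
        ← Real.rpow_add hY0]
      have e1 : C ^ ((3 : ℝ) / 4) ≤ C := by
        calc C ^ ((3 : ℝ) / 4) ≤ C ^ (1 : ℝ) :=
              Real.rpow_le_rpow_of_exponent_le hC (by norm_num)
          _ = C := Real.rpow_one _
      have e2 : lam * (3 / 4) + 1 / 8 = (6 * lam + 1) / 8 := by ring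
      rw [e2]
      gcongr
  unfold Bd ex3
  rcases min_choice (11 * lam / 12) ((6 * lam + 1) / 8) with h | h <;> rw [h]
  · exact (min_le_left _ _).trans hA
  · exact (min_le_right _ _).trans hB

theorem radp_le_exp (m : ℕ) (S : Finset ℕ) (n n' : ℤ) (hn' : n' ≠ 0)
    (h : ∀ q : ℕ, q.Prime → ¬ q ∣ m → (q : ℤ) ∣ n → (q : ℤ) ∣ n') (hS : ∀ q ∈ S, q ≠ 0 → q ∣ m) :
    (radp m n.natAbs : ℝ) ≤ Real.exp (N1 S n') := by
  unfold radp N1
  rw [Real.exp_sum]
  push_cast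
  have e1 : ∏ p ∈ n'.natAbs.primeFactors.filter (fun p => p ∉ S), Real.exp (Real.log (p : ℝ)) =
      ∏ p ∈ n'.natAbs.primeFactors.filter (fun p => p ∉ S), (p : ℝ) := by
    refine prod_congr rfl fun p hp => ?_
    have hpp := Nat.prime_of_mem_primeFactors (mem_filter.mp hp).1
    exact Real.exp_log (by exact_mod_cast hpp.pos)
  rw [e1]
  have key : ∏ p ∈ n.natAbs.primeFactors.filter (fun p => ¬ p ∣ m), p ≤
      ∏ p ∈ n'.natAbs.primeFactors.filter (fun p => p ∉ S), p := by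
    apply Finset.prod_le_prod_of_subset_of_one_le'
    · intro p hp
      rw [mem_filter] at hp ⊢
      obtain ⟨hp1, hp2⟩ := hp
      have hpp := Nat.prime_of_mem_primeFactors hp1
      have hd : (p : ℤ) ∣ n := Int.natCast_dvd.mpr (Nat.dvd_of_mem_primeFactors hp1)
      have hd' := h p hpp hp2 hd
      refine ⟨Nat.mem_primeFactors.mpr ⟨hpp, Int.natCast_dvd.mp hd', ?_⟩, ?_⟩
      · exact Int.natAbs_ne_zero.mpr hn'
      · intro hpS
        exact hp2 (hS p hpS hpp.ne_zero)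
    · intro p hp _
      have hpp := Nat.prime_of_mem_primeFactors (mem_filter.mp hp).1
      exact hpp.one_lt.le
  have key2 := (Nat.cast_le (α := ℝ)).mpr key
  push_cast at key2
  exact key2

theorem deg3 (hHT : ∀ A B : ℤ, 4 * A ^ 3 - 27 * B ^ 2 ≠ 0 → ∃ i : ℕ, 1 ≤ i ∧ HT A B i)
    (hRED : S_RED) (a b c d : ℤ) (hdisc : disc3 a b c d ≠ 0) (S : Finset ℕ) (lam c0 δ : ℝ)
    (hl0 : 0 ≤ lam) (hl1 : lam ≤ 1) (hδ : 0 < δ) :
    ∃ C : ℝ, 0 < C ∧ ∀ X : ℝ, 1 ≤ X → (E3 a b c d S lam c0 X).Finite ∧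
      ((E3 a b c d S lam c0 X).ncard : ℝ) ≤ C * X ^ (ex3 lam + δ) := by
  classical
  obtain ⟨A, B, M, C1, φ, hAB, hM, hC1, hφ⟩ := hRED a b c d hdisc
  obtain ⟨i, hi, hT⟩ := hHT A B hAB
  set m : ℕ := M * i * ∏ p ∈ S.filter (fun p => p ≠ 0), p with hm
  have hS0 : 0 < ∏ p ∈ S.filter (fun p => p ≠ 0), p :=
    Finset.prod_pos fun p hp => Nat.pos_of_ne_zero (mem_filter.mp hp).2
  have hm1 : 1 ≤ m := by
    have : 0 < M * i * ∏ p ∈ S.filter (fun p => p ≠ 0), p := by positivity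
    omega
  have him : i ∣ m := ⟨M * ∏ p ∈ S.filter (fun p => p ≠ 0), p, by rw [hm]; ring⟩
  have hMm : M ∣ m := ⟨i * ∏ p ∈ S.filter (fun p => p ≠ 0), p, by rw [hm]; ring⟩
  have hSm : ∀ q ∈ S, q ≠ 0 → q ∣ m := by
    intro q hq hq0
    have h1 : q ∣ ∏ p ∈ S.filter (fun p => p ≠ 0), p :=
      Finset.dvd_prod_of_mem _ (mem_filter.mpr ⟨hq, hq0⟩)
    rw [hm]
    exact h1.mul_left _
  set C2 : ℝ := max 1 (Real.exp c0 * C1) with hC2
  have hC2' : 1 ≤ C2 := le_max_left _ _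
  obtain ⟨C5, hC5, hcount⟩ := hT C2 (δ / 2) (by linarith) (by positivity)
  obtain ⟨C7, hC7, hlog⟩ := log_boundR (2 * C1) (δ / 2) (by linarith) (by positivity)
  have he0 := ex3_nonneg lam hl0
  set e : ℝ := ex3 lam with he
  refine ⟨2 * (C5 * ((m : ℝ) * (2 * C1)) ^ (δ / 2) * (C2 * (2 * C1) ^ e)) * C7, by positivity,
    fun X hX1 => ⟨e3_finite _ _ _ _ _ _ _ _, ?_⟩⟩
  have hX0 : 0 < X := by linarith
  set E : Finset (ℤ × ℤ) := (e3_finite a b c d S lam c0 X).toFinset with hE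
  have hEm : ∀ q ∈ E, q ∈ E3 a b c d S lam c0 X := fun q hq => by
    rw [hE, Set.Finite.mem_toFinset] at hq
    exact hq
  rw [Set.ncard_eq_toFinset_card _ (e3_finite a b c d S lam c0 X), ← hE]
  -- the size of `φ p`
  let mx : ℤ × ℤ → ℕ := fun p => max (φ p).1.natAbs (φ p).2.natAbs
  have hmxR : ∀ p, (mx p : ℝ) = max |((φ p).1 : ℝ)| |((φ p).2 : ℝ)| := by
    intro p
    show ((max (φ p).1.natAbs (φ p).2.natAbs : ℕ) : ℝ) = _
    rw [Nat.cast_max, Nat.cast_natAbs, Nat.cast_natAbs, Int.cast_abs, Int.cast_abs]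
  have hmx1 : ∀ p ∈ E, 1 ≤ mx p := by
    intro p hp
    obtain ⟨h1, h2, -⟩ := hEm p hp
    obtain ⟨h3, h4, -⟩ := hφ p h1 h2
    by_contra hcon
    have h0 : mx p = 0 := by omega
    have hz1 : (φ p).1 = 0 := by
      have : (φ p).1.natAbs ≤ mx p := le_max_left _ _
      omega
    have hz2 : (φ p).2 = 0 := by
      have : (φ p).2.natAbs ≤ mx p := le_max_right _ _
      omega
    apply h4
    rw [hz1, hz2]
    unfold G
    ring
  have hclog : ∀ p ∈ E, (mx p : ℝ) ≤ 2 ^ Nat.clog 2 (mx p) ∧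
      (2 : ℝ) ^ Nat.clog 2 (mx p) ≤ 2 * mx p := by
    intro p hp
    have h1 := hmx1 p hp
    refine ⟨by exact_mod_cast Nat.le_pow_clog (by norm_num) (mx p), ?_⟩
    rcases Nat.lt_or_ge 1 (mx p) with h | h
    · have h2 := Nat.pow_pred_clog_lt_self (b := 2) (by norm_num) h
      have h3 : 0 < Nat.clog 2 (mx p) := Nat.clog_pos (by norm_num) h
      have h4 : 2 ^ Nat.clog 2 (mx p) = 2 * 2 ^ (Nat.clog 2 (mx p)).pred := by
        rw [← pow_succ']
        exact congrArg (fun t => 2 ^ t) (Nat.succ_pred_eq_of_pos h3).symm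
      have h5 : 2 ^ Nat.clog 2 (mx p) ≤ 2 * mx p := by rw [h4]; omega
      exact_mod_cast h5
    · have h2 : mx p = 1 := by omega
      rw [h2]
      norm_num
  have hYX : ∀ p ∈ E, (2 : ℝ) ^ Nat.clog 2 (mx p) ≤ 2 * C1 * X := by
    intro p hp
    obtain ⟨h1, h2, h3, -⟩ := hEm p hp
    obtain ⟨-, -, h4, -⟩ := hφ p h1 h2
    calc (2 : ℝ) ^ Nat.clog 2 (mx p) ≤ 2 * mx p := (hclog p hp).2
      _ = 2 * max |((φ p).1 : ℝ)| |((φ p).2 : ℝ)| := by rw [hmxR]
      _ ≤ 2 * (C1 * max |(p.1 : ℝ)| |(p.2 : ℝ)|) := by linarith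
      _ ≤ 2 * (C1 * X) := by gcongr
      _ = _ := by ring
  set J : ℕ := Nat.log 2 ⌊2 * C1 * X⌋₊ + 1 with hJ
  have hcov : E ⊆ (range J).biUnion (fun j => E.filter (fun p => Nat.clog 2 (mx p) = j)) := by
    intro p hp
    rw [mem_biUnion]
    refine ⟨Nat.clog 2 (mx p), ?_, mem_filter.mpr ⟨hp, rfl⟩⟩
    rw [mem_range, hJ, Nat.lt_succ_iff]
    apply Nat.le_log_of_pow_le (by norm_num)
    apply Nat.le_floor
    push_cast
    exact hYX p hp
  have hclass : ∀ j ∈ range J,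
      ((E.filter (fun p => Nat.clog 2 (mx p) = j)).card : ℝ) ≤
        2 * (C5 * ((m : ℝ) * (2 * C1)) ^ (δ / 2) * (C2 * (2 * C1) ^ e)) * X ^ (e + δ / 2) := by
    intro j hj
    set T := E.filter (fun p => Nat.clog 2 (mx p) = j) with hTd
    rcases T.eq_empty_or_nonempty with hemp | hne
    · rw [hemp, card_empty]
      push_cast
      positivity
    have hY1 : (1 : ℝ) ≤ 2 ^ j := one_le_pow₀ (by norm_num)
    have hTm : ∀ p ∈ T, p ∈ E ∧ Nat.clog 2 (mx p) = j := by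
      intro p hp
      rw [hTd, mem_filter] at hp
      exact hp
    have hYX' : (2 : ℝ) ^ j ≤ 2 * C1 * X := by
      obtain ⟨p, hp⟩ := hne
      obtain ⟨h1, h2⟩ := hTm p hp
      have := hYX p h1
      rwa [h2] at this
    -- two to one
    have h2to1 : T.card ≤ 2 * (T.image φ).card := by
      refine Finset.card_le_mul_card_image _ 2 ?_
      intro t ht
      obtain ⟨p, hp, rfl⟩ := mem_image.mp ht
      obtain ⟨h1, h2, -⟩ := hEm p (hTm p hp).1
      have hinj := (hφ p h1 h2).2.2.2.2.2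
      have hsub : T.filter (fun p' => φ p' = φ p) ⊆ {p, (-p.1, -p.2)} := by
        intro p' hp'
        rw [mem_filter] at hp'
        obtain ⟨h3, -⟩ := hEm p' (hTm p' hp'.1).1
        rw [mem_insert, mem_singleton]
        exact hinj p' h3 hp'.2.symm
      exact (card_le_card hsub).trans card_le_two
    set R : ℝ := C2 * ((2 : ℝ) ^ j) ^ lam with hR
    have hR1 : 1 ≤ R := by
      rw [hR]
      have : 1 ≤ ((2 : ℝ) ^ j) ^ lam := Real.one_le_rpow hY1 hl0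
      nlinarith
    have hRY : R ≤ C2 * 2 ^ j := by
      rw [hR]
      have : ((2 : ℝ) ^ j) ^ lam ≤ 2 ^ j := by
        calc ((2 : ℝ) ^ j) ^ lam ≤ ((2 : ℝ) ^ j) ^ (1 : ℝ) :=
              Real.rpow_le_rpow_of_exponent_le hY1 hl1
          _ = _ := Real.rpow_one _
      gcongr
    have hmain := hcount m (2 ^ j) R hm1 him hY1 hR1 hRY (T.image φ) (by
      intro t ht
      obtain ⟨p, hp, rfl⟩ := mem_image.mp ht
      obtain ⟨hpE, hpj⟩ := hTm p hp
      obtain ⟨h1, h2, h3, h4⟩ := hEm p hpE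
      obtain ⟨g1, g2, g3, g4, g5, -⟩ := hφ p h1 h2
      obtain ⟨k1, k2⟩ := hclog p hpE
      rw [hpj, hmxR] at k1 k2
      refine ⟨⟨g1, (le_max_left _ _).trans k1, (le_max_right _ _).trans k1, k2⟩, g2, ?_⟩
      refine (radp_le_exp m S _ _ h2 (fun q hq hqm hqd =>
        g5 q hq (fun h => hqm (h.trans hMm)) hqd) hSm).trans ?_
      have hmax1 : 1 ≤ max |((φ p).1 : ℝ)| |((φ p).2 : ℝ)| := by
        rw [← hmxR]
        exact_mod_cast hmx1 p hpE
      have hmaxp : 0 < max |(p.1 : ℝ)| |(p.2 : ℝ)| := by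
        by_contra hcon
        push Not at hcon
        have h5 : C1 * max |(p.1 : ℝ)| |(p.2 : ℝ)| ≤ 0 := by nlinarith
        linarith
      calc Real.exp (N1 S (F3 a b c d p.1 p.2)) ≤
            Real.exp (lam * Real.log (max |(p.1 : ℝ)| |(p.2 : ℝ)|) + c0) := Real.exp_le_exp.mpr h4
        _ = Real.exp c0 * (max |(p.1 : ℝ)| |(p.2 : ℝ)|) ^ lam := by
            rw [Real.exp_add, Real.rpow_def_of_pos hmaxp, mul_comm lam]
            ring
        _ ≤ Real.exp c0 * (C1 * 2 ^ j) ^ lam := by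
            have : max |(p.1 : ℝ)| |(p.2 : ℝ)| ≤ C1 * 2 ^ j :=
              g4.trans (mul_le_mul_of_nonneg_left k1 (by linarith))
            gcongr
        _ = Real.exp c0 * (C1 ^ lam * ((2 : ℝ) ^ j) ^ lam) := by
            rw [Real.mul_rpow (by linarith) (by positivity)]
        _ ≤ Real.exp c0 * (C1 * ((2 : ℝ) ^ j) ^ lam) := by
            have : C1 ^ lam ≤ C1 := by
              calc C1 ^ lam ≤ C1 ^ (1 : ℝ) := Real.rpow_le_rpow_of_exponent_le hC1 hl1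
                _ = C1 := Real.rpow_one _
            gcongr
        _ = Real.exp c0 * C1 * ((2 : ℝ) ^ j) ^ lam := by ring
        _ ≤ R := by
            rw [hR]
            gcongr
            exact le_max_right _ _)
    have hbd := bd3 C2 (2 ^ j) lam hC2' hY1 hl1
    rw [← hR, ← he] at hbd
    have hBd0 : 0 ≤ Bd (2 ^ j) R := by
      unfold Bd
      have : 0 ≤ R := by linarith
      exact le_min (by positivity) (le_max_of_le_left (by positivity))
    have hcardR : (T.card : ℝ) ≤ 2 * ((T.image φ).card : ℝ) := by exact_mod_cast h2to1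
    calc (T.card : ℝ) ≤ 2 * ((T.image φ).card : ℝ) := hcardR
      _ ≤ 2 * (C5 * ((m : ℝ) * 2 ^ j) ^ (δ / 2) * Bd (2 ^ j) R) := by linarith
      _ ≤ 2 * (C5 * ((m : ℝ) * (2 * C1 * X)) ^ (δ / 2) * (C2 * (2 * C1 * X) ^ e)) := by
          have k1 : Bd (2 ^ j) R ≤ C2 * (2 * C1 * X) ^ e := hbd.trans (by gcongr)
          gcongr
      _ = 2 * (C5 * ((m : ℝ) * (2 * C1)) ^ (δ / 2) * (C2 * (2 * C1) ^ e)) *
            (X ^ e * X ^ (δ / 2)) := by
          rw [← mul_assoc (m : ℝ), Real.mul_rpow (by positivity) hX0.le,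
            Real.mul_rpow (by positivity) hX0.le]
          ring
      _ = _ := by rw [← Real.rpow_add hX0]
  calc (E.card : ℝ) ≤ (((range J).biUnion
        (fun j => E.filter (fun p => Nat.clog 2 (mx p) = j))).card : ℝ) := by
        exact_mod_cast card_le_card hcov
    _ ≤ ∑ j ∈ range J, ((E.filter (fun p => Nat.clog 2 (mx p) = j)).card : ℝ) := by
        exact_mod_cast card_biUnion_le
    _ ≤ ∑ j ∈ range J,
        2 * (C5 * ((m : ℝ) * (2 * C1)) ^ (δ / 2) * (C2 * (2 * C1) ^ e)) * X ^ (e + δ / 2) :=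
        sum_le_sum hclass
    _ = 2 * (C5 * ((m : ℝ) * (2 * C1)) ^ (δ / 2) * (C2 * (2 * C1) ^ e)) * X ^ (e + δ / 2) * J := by
        rw [sum_const, card_range, nsmul_eq_mul, mul_comm]
    _ ≤ 2 * (C5 * ((m : ℝ) * (2 * C1)) ^ (δ / 2) * (C2 * (2 * C1) ^ e)) * X ^ (e + δ / 2) *
          (C7 * X ^ (δ / 2)) := by
        gcongr
        exact hlog X hX1
    _ = 2 * (C5 * ((m : ℝ) * (2 * C1)) ^ (δ / 2) * (C2 * (2 * C1) ^ e)) * C7 *
          (X ^ (e + δ / 2) * X ^ (δ / 2)) := by ring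
    _ = _ := by
        rw [← Real.rpow_add hX0]
        congr 2
        ring

end Pool.Agent.W4.CF
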