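import Pool.Agent.W4.CF.Deg3
import Pool.Agent.W4.CF.All
import Pool.Agent.W214.CD.TG
import Pool.Agent.W21.CD.AG
import Pool.Agent.W930.CD.FAC
import Pool.Agent.W475.CD.QFAC
import Pool.Agent.W563.CD.SZC
import Pool.Agent.W753.CD.ROOTQ
import Pool.Agent.W753.CD.RED
import Pool.Agent.W131.CD.BQ
import Pool.Agent.W475.CD.BL

/-!
# Project CD: all parts together
-/

set_option autoImplicit false

namespace Pool.Agent.W4.CF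

open NumberField Finset

theorem hb_irr (K : Type) [Field K] [NumberField K] (ρ : 𝓞 K) (A B : ℤ) (h : Cub K ρ A B) :
    ∃ i : ℕ, 1 ≤ i ∧ HB A B i := by
  obtain ⟨i, hi⟩ := Pool.Agent.W721.CF.t_IDX K ρ A B h
  exact ⟨i, hi.1, hB K ρ A B i h hi⟩

theorem hHB_of (hBQ : S_BQ) (hBL : S_BL) (A B : ℤ)
    (h : 4 * A ^ 3 - 27 * B ^ 2 ≠ 0) : ∃ i : ℕ, 1 ≤ i ∧ HB A B i := by
  rcases Pool.Agent.W930.CD.t_FAC A B h with ⟨K, _, _, ρ, hc⟩ | ⟨K, _, _, ρ, r, hq, hB⟩ |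
    ⟨r1, r2, r3, h12, h13, h23, hs, hA, hB⟩
  · exact hb_irr K ρ A B hc
  · rw [hB]
    exact hBQ K ρ r A hq
  · rw [hA, hB]
    exact hBL r1 r2 r3 h12 h13 h23 hs

theorem hHT_of (hROOTQ : S_ROOTQ) (hBQ : S_BQ) (hBL : S_BL) (A B : ℤ)
    (h : 4 * A ^ 3 - 27 * B ^ 2 ≠ 0) : ∃ i : ℕ, 1 ≤ i ∧ HT A B i := by
  have hAG : HA A B := Pool.Agent.W21.CD.t_AG hROOTQ Pool.Agent.W397.CF.t_GEO A B h
  obtain ⟨i, hi, hb⟩ := hHB_of hBQ hBL A B h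
  exact ⟨i, hi, Pool.Agent.W214.CD.t_TG Pool.Agent.W540.CF.t_SEL Pool.W335.CF.t_RAD A B i hi hAG hb⟩

theorem hHB (A B : ℤ) (h : 4 * A ^ 3 - 27 * B ^ 2 ≠ 0) : ∃ i : ℕ, 1 ≤ i ∧ HB A B i :=
  hHB_of (Pool.Agent.W131.CD.t_BQ Pool.Agent.W475.CD.t_QFAC Pool.Agent.W578.CF.t_DIVS
      Pool.Agent.W230.CF.t_TAU Pool.Agent.W721.CF.t_MINK Pool.Agent.W563.CD.t_SZC
      Pool.Agent.W563.CD.t_BOX) Pool.Agent.W475.CD.t_BL A B h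

theorem hHT (A B : ℤ) (h : 4 * A ^ 3 - 27 * B ^ 2 ≠ 0) : ∃ i : ℕ, 1 ≤ i ∧ HT A B i :=
  hHT_of Pool.Agent.W753.CD.ROOTQ.t_ROOTQ
    (Pool.Agent.W131.CD.t_BQ Pool.Agent.W475.CD.t_QFAC Pool.Agent.W578.CF.t_DIVS
      Pool.Agent.W230.CF.t_TAU Pool.Agent.W721.CF.t_MINK Pool.Agent.W563.CD.t_SZC
      Pool.Agent.W563.CD.t_BOX) Pool.Agent.W475.CD.t_BL A B h

theorem deg3_main (a b c d : ℤ) (hdisc : disc3 a b c d ≠ 0) (S : Finset ℕ) (lam c0 δ : ℝ)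
    (hl0 : 0 ≤ lam) (hl1 : lam ≤ 1) (hδ : 0 < δ) :
    ∃ C : ℝ, 0 < C ∧ ∀ X : ℝ, 1 ≤ X → (E3 a b c d S lam c0 X).Finite ∧
      ((E3 a b c d S lam c0 X).ncard : ℝ) ≤ C * X ^ (ex3 lam + δ) :=
  deg3 hHT Pool.Agent.W753.CD.RED.t_RED a b c d hdisc S lam c0 δ hl0 hl1 hδ

end Pool.Agent.W4.CF
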