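import Pool.Agent.W4.CF.Stms3

/-!
# Project CD: statements over the splitting field (for MP_4d5ce1_nt)
-/

set_option autoImplicit false

namespace Pool.Agent.W4.CF

open NumberField IsDedekindDomain

/-- the absolute logarithmic height of the point `[x : 1]` -/
noncomputable def heightK {K : Type} [Field K] [NumberField K] (x : K) : ℝ :=
  (∑ w : InfinitePlace K, (w.mult : ℝ) * Real.log (max (w x) (w 1)) +
    ∑ᶠ v : HeightOneSpectrum (RingOfIntegers K),
      Real.log (max (FinitePlace.mk v x) (FinitePlace.mk v 1))) /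
    (Module.finrank ℚ K : ℝ)

/-- the truncated counting function of the point `[x : 1]` with respect to the points
`[(α l).1 : (α l).2]` -/
noncomputable def countingK {K : Type} [Field K] [NumberField K]
    (T : Set (HeightOneSpectrum (RingOfIntegers K))) {q : ℕ} (α : Fin q → K × K) (x : K) : ℝ :=
  ∑ᶠ (v : HeightOneSpectrum (RingOfIntegers K)) (_ : v ∉ T),
    ∑ l : Fin q,
      min
        (Real.log
            (max (FinitePlace.mk v x) (FinitePlace.mk v 1) *
              max (FinitePlace.mk v (α l).1) (FinitePlace.mk v (α l).2) /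
              FinitePlace.mk v (x * (α l).2 - 1 * (α l).1)) /
          (Module.finrank ℚ K : ℝ))
        (Real.log (Ideal.absNorm v.asIdeal : ℝ) / (Module.finrank ℚ K : ℝ))

/-- HTQ: the height of a rational number, computed in `K`. -/
def S_HTQ : Prop := ∀ (K : Type) [Field K] [NumberField K] (u v : ℤ), IsCoprime u v → v ≠ 0 →
  heightK ((u : K) / (v : K)) = Real.log (max |(u : ℝ)| |(v : ℝ)|)

/-- CNT: for a rational `x = u/v` the truncated counting function of the zeros of a cubic form is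
at least the sum of `log p` over the primes `p ∤ m` that divide the value. -/
def S_CNT : Prop := ∀ (K : Type) [Field K] [NumberField K]
  (T : Set (HeightOneSpectrum (RingOfIntegers K))), T.Finite →
  ∀ (α : Fin 3 → K × K), (∀ i, α i ≠ 0) →
  (∀ i j, i ≠ j → (α i).1 * (α j).2 - (α i).2 * (α j).1 ≠ 0) →
  ∀ a b c d : ℤ, (a, b, c, d) ≠ (0, 0, 0, 0) →
  (∀ i, (a : K) * (α i).1 ^ 3 + b * (α i).1 ^ 2 * (α i).2 + c * (α i).1 * (α i).2 ^ 2 +
    d * (α i).2 ^ 3 = 0) →
  ∃ m : ℕ, 1 ≤ m ∧ ∀ u v : ℤ, IsCoprime u v → v ≠ 0 → F3 a b c d u v ≠ 0 →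
    ∑ p ∈ (F3 a b c d u v).natAbs.primeFactors.filter (fun p => ¬ p ∣ m), Real.log (p : ℝ) ≤
      countingK T α ((u : K) / (v : K))

/-- DISC: three distinct zeros give a nonzero discriminant. -/
def S_DISC : Prop := ∀ (K : Type) [Field K] [NumberField K] (α : Fin 3 → K × K), (∀ i, α i ≠ 0) →
  (∀ i j, i ≠ j → (α i).1 * (α j).2 - (α i).2 * (α j).1 ≠ 0) →
  ∀ a b c d : ℤ, (a, b, c, d) ≠ (0, 0, 0, 0) →
  (∀ i, (a : K) * (α i).1 ^ 3 + b * (α i).1 ^ 2 * (α i).2 + c * (α i).1 * (α i).2 ^ 2 +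
    d * (α i).2 ^ 3 = 0) → disc3 a b c d ≠ 0

end Pool.Agent.W4.CF
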