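import Pool.Agent.W4.CF.Deg3All
import Pool.Agent.W4.CF.Stms4

/-!
# Project CD: rational points and the zeros of a rational cubic form in a number field
-/

set_option autoImplicit false

namespace Pool.Agent.W4.CF

open NumberField IsDedekindDomain Finset

/-- the rational exceptional points -/
def EK {K : Type} [Field K] [NumberField K] (T : Set (HeightOneSpectrum (RingOfIntegers K)))
    (α : Fin 3 → K × K) (κ c0 B : ℝ) : Set ℚ :=
  {x : ℚ | (∀ l, (x : K) * (α l).2 - 1 * (α l).1 ≠ 0) ∧ Real.exp (heightK (x : K)) ≤ B ∧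
    countingK T α (x : K) < (3 - κ) * heightK (x : K) + c0}

/-- ZERO: a fourth zero is impossible -/
def S_ZERO : Prop := ∀ (K : Type) [Field K] [NumberField K] (α : Fin 3 → K × K), (∀ i, α i ≠ 0) →
  (∀ i j, i ≠ j → (α i).1 * (α j).2 - (α i).2 * (α j).1 ≠ 0) →
  ∀ a b c d : ℤ, (a, b, c, d) ≠ (0, 0, 0, 0) →
  (∀ i, (a : K) * (α i).1 ^ 3 + b * (α i).1 ^ 2 * (α i).2 + c * (α i).1 * (α i).2 ^ 2 +
    d * (α i).2 ^ 3 = 0) → ∀ u v : ℤ, F3 a b c d u v = 0 →
    ∃ l, (u : K) * (α l).2 - v * (α l).1 = 0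

theorem deg3K_of (hHTQ : S_HTQ) (hCNT : S_CNT) (hDISC : S_DISC) (hZERO : S_ZERO)
    (K : Type) [Field K] [NumberField K] (T : Set (HeightOneSpectrum (RingOfIntegers K)))
    (hT : T.Finite) (α : Fin 3 → K × K) (hα0 : ∀ i, α i ≠ 0)
    (hα : ∀ i j, i ≠ j → (α i).1 * (α j).2 - (α i).2 * (α j).1 ≠ 0)
    (a b c d : ℤ) (hne : (a, b, c, d) ≠ (0, 0, 0, 0))
    (hF : ∀ i, (a : K) * (α i).1 ^ 3 + b * (α i).1 ^ 2 * (α i).2 + c * (α i).1 * (α i).2 ^ 2 +
      d * (α i).2 ^ 3 = 0) (κ c0 δ : ℝ) (h2 : 2 ≤ κ) (h3 : κ ≤ 3) (hδ : 0 < δ) :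
    ∃ C : ℝ, 0 < C ∧ ∀ B : ℝ, 1 ≤ B → (EK T α κ c0 B).Finite ∧
      ((EK T α κ c0 B).ncard : ℝ) ≤ C * B ^ (ex3 (3 - κ) + δ) := by
  classical
  have hdisc := hDISC K α hα0 hα a b c d hne hF
  obtain ⟨m, hm, hcnt⟩ := hCNT K T hT α hα0 hα a b c d hne hF
  obtain ⟨C, hC, hmain⟩ := deg3_main a b c d hdisc m.primeFactors (3 - κ) c0 δ (by linarith)
    (by linarith) hδ
  refine ⟨C, hC, fun B hB => ?_⟩
  obtain ⟨hfin, hle⟩ := hmain B hB
  let f : ℚ → ℤ × ℤ := fun x => (x.num, (x.den : ℤ))
  have hinj : Function.Injective f := by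
    intro x y h
    have h1 : x.num = y.num := congrArg Prod.fst h
    have h2 : (x.den : ℤ) = (y.den : ℤ) := congrArg Prod.snd h
    exact Rat.ext h1 (by exact_mod_cast h2)
  have hsub : f '' (EK T α κ c0 B) ⊆ E3 a b c d m.primeFactors (3 - κ) c0 B := by
    rintro _ ⟨x, ⟨hx1, hx2, hx3⟩, rfl⟩
    have hcop : IsCoprime x.num (x.den : ℤ) := by
      rw [Int.isCoprime_iff_gcd_eq_one]
      exact x.reduced
    have hden : (x.den : ℤ) ≠ 0 := by exact_mod_cast x.den_nz
    have hxeq : (x : K) = ((x.num : ℤ) : K) / (((x.den : ℤ)) : K) := by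
      push_cast
      exact (Rat.cast_def x)
    have hh : heightK (x : K) = Real.log (max |(x.num : ℝ)| |((x.den : ℤ) : ℝ)|) := by
      rw [hxeq]
      exact hHTQ K _ _ hcop hden
    have hF0 : F3 a b c d x.num (x.den : ℤ) ≠ 0 := by
      intro h0
      obtain ⟨l, hl⟩ := hZERO K α hα0 hα a b c d hne hF _ _ h0
      apply hx1 l
      have hdK : (((x.den : ℤ)) : K) ≠ 0 := by exact_mod_cast x.den_nz
      rw [hxeq]
      field_simp
      linear_combination hl
    have hmaxpos : 0 < max |(x.num : ℝ)| |((x.den : ℤ) : ℝ)| := by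
      refine lt_of_lt_of_le ?_ (le_max_right _ _)
      have : ((x.den : ℤ) : ℝ) ≠ 0 := by exact_mod_cast x.den_nz
      positivity
    refine ⟨hcop, hF0, ?_, ?_⟩
    · rw [hh, Real.exp_log hmaxpos] at hx2
      exact hx2
    · have h1 := hcnt x.num (x.den : ℤ) hcop hden hF0
      rw [← hxeq] at h1
      rw [hh] at hx3
      have h4 : N1 m.primeFactors (F3 a b c d x.num (x.den : ℤ)) ≤
          ∑ p ∈ (F3 a b c d x.num (x.den : ℤ)).natAbs.primeFactors.filter (fun p => ¬ p ∣ m),
            Real.log (p : ℝ) := by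
        unfold N1
        apply le_of_eq
        apply sum_congr _ (fun _ _ => rfl)
        apply filter_congr
        intro p hp
        have hpp := Nat.prime_of_mem_primeFactors hp
        rw [Nat.mem_primeFactors]
        constructor
        · intro h h'
          exact h ⟨hpp, h', by omega⟩
        · intro h h'
          exact h h'.2.1
      show N1 m.primeFactors (F3 a b c d x.num (x.den : ℤ)) ≤
        (3 - κ) * Real.log (max |(x.num : ℝ)| |((x.den : ℤ) : ℝ)|) + c0
      linarith
  have hfinE : (EK T α κ c0 B).Finite := by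
    refine Set.Finite.of_finite_image ?_ hinj.injOn
    exact hfin.subset hsub
  refine ⟨hfinE, ?_⟩
  have h5 : (EK T α κ c0 B).ncard = (f '' (EK T α κ c0 B)).ncard :=
    (Set.ncard_image_of_injective _ hinj).symm
  rw [h5]
  refine le_trans ?_ hle
  exact_mod_cast Set.ncard_le_ncard hsub hfin

theorem t_ZERO : S_ZERO := by
  intro K _ _ α hα0 hα a b c d hne hF u v h0
  by_contra hcon
  push Not at hcon
  apply hne
  let P : Fin 4 → K := ![(α 0).1, (α 1).1, (α 2).1, (u : K)]
  let Q : Fin 4 → K := ![(α 0).2, (α 1).2, (α 2).2, (v : K)]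
  have h0K : (a : K) * (u : K) ^ 3 + b * (u : K) ^ 2 * v + c * u * (v : K) ^ 2 + d * (v : K) ^ 3 = 0 := by
    unfold F3 at h0
    exact_mod_cast h0
  have hdet : (Matrix.projVandermonde P Q).det ≠ 0 := by
    rw [Matrix.det_projVandermonde]
    rw [Finset.prod_ne_zero_iff]
    intro i _
    rw [Finset.prod_ne_zero_iff]
    intro j hj
    rw [Finset.mem_Ioi] at hj
    have h01 := hα 0 1 (by decide)
    have h02 := hα 0 2 (by decide)
    have h12 := hα 1 2 (by decide)
    have h30 := hcon 0
    have h31 := hcon 1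
    have h32 := hcon 2
    fin_cases i <;> fin_cases j <;> first
      | exact absurd hj (by decide)
      | (simp only [P, Q]
         intro hh
         first
         | exact h01 (by simp at hh; linear_combination -hh)
         | exact h02 (by simp at hh; linear_combination -hh)
         | exact h12 (by simp at hh; linear_combination -hh)
         | exact h30 (by simp at hh; linear_combination hh)
         | exact h31 (by simp at hh; linear_combination hh)
         | exact h32 (by simp at hh; linear_combination hh))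
  have hmul : (Matrix.projVandermonde P Q).mulVec ![(d : K), c, b, a] = 0 := by
    ext i
    simp only [Matrix.mulVec, dotProduct, Matrix.projVandermonde_apply, Fin.sum_univ_four,
      Pi.zero_apply]
    fin_cases i
    · simp [P, Q, Fin.rev]
      linear_combination hF 0
    · simp [P, Q, Fin.rev]
      linear_combination hF 1
    · simp [P, Q, Fin.rev]
      linear_combination hF 2
    · simp [P, Q, Fin.rev]
      linear_combination h0K
  have hz := Matrix.eq_zero_of_mulVec_eq_zero hdet hmul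
  have e0 := congrFun hz 0
  have e1 := congrFun hz 1
  have e2 := congrFun hz 2
  have e3 := congrFun hz 3
  simp at e0 e1 e2 e3
  simp [e0, e1, e2, e3]

end Pool.Agent.W4.CF
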