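import Pool.Agent.W4.CF.Deg3K
import Pool.Agent.W4.CF.Htq
import Pool.Agent.W240.CD.CntMain
import Pool.Agent.W240.CD.Disc

set_option autoImplicit false

namespace Pool.Agent.W4.CF

open NumberField IsDedekindDomain Finset

theorem deg3K_main (K : Type) [Field K] [NumberField K]
    (T : Set (HeightOneSpectrum (RingOfIntegers K)))
    (hT : T.Finite) (α : Fin 3 → K × K) (hα0 : ∀ i, α i ≠ 0)
    (hα : ∀ i j, i ≠ j → (α i).1 * (α j).2 - (α i).2 * (α j).1 ≠ 0)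
    (a b c d : ℤ) (hne : (a, b, c, d) ≠ (0, 0, 0, 0))
    (hF : ∀ i, (a : K) * (α i).1 ^ 3 + b * (α i).1 ^ 2 * (α i).2 + c * (α i).1 * (α i).2 ^ 2 +
      d * (α i).2 ^ 3 = 0) (κ c0 δ : ℝ) (h2 : 2 ≤ κ) (h3 : κ ≤ 3) (hδ : 0 < δ) :
    ∃ C : ℝ, 0 < C ∧ ∀ B : ℝ, 1 ≤ B → (EK T α κ c0 B).Finite ∧
      ((EK T α κ c0 B).ncard : ℝ) ≤ C * B ^ (ex3 (3 - κ) + δ) :=
  deg3K_of t_HTQ Pool.Agent.W240.CD.t_CNT Pool.Agent.W240.CD.t_DISC t_ZERO K T hT α hα0 hα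
    a b c d hne hF κ c0 δ h2 h3 hδ

end Pool.Agent.W4.CF
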