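import Pool.Agent.W4.CF.Stms2

/-!
# Project CF: numerical lemmas for the final summation
-/

set_option autoImplicit false

namespace Pool.Agent.W4.CF

open Finset

theorem bd_le (κ C W g Y : ℝ) (hκ : 6 ≤ κ) (hC : 1 ≤ C) (hg : 1 ≤ g) (hY : 1 ≤ Y)
    (hW : g * Y ≤ W) :
    Bd Y (C * (g * Y) ^ (6 / κ) / g ^ 2) ≤
      C * W ^ (min (1 / 8 + 9 / (2 * κ)) (11 / (2 * κ))) * g ^ (-(13 : ℝ) / 8) := by
  have hκ0 : 0 < κ := by linarith
  have hg0 : 0 < g := by linarith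
  have hY0 : 0 < Y := by linarith
  have hC0 : 0 < C := by linarith
  have hgY1 : 1 ≤ g * Y := by nlinarith
  have hgY0 : 0 < g * Y := by linarith
  have hW1 : 1 ≤ W := hgY1.trans hW
  have hW0 : 0 < W := by linarith
  set R : ℝ := C * (g * Y) ^ (6 / κ) / g ^ 2 with hR
  have hR0 : 0 < R := by positivity
  have hA : Bd Y R ≤ C * W ^ (11 / (2 * κ)) * g ^ (-(13 : ℝ) / 8) := by
    refine (min_le_left _ _).trans ?_
    have e1 : R ^ ((11 : ℝ) / 12) =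
        C ^ ((11 : ℝ) / 12) * (g * Y) ^ (11 / (2 * κ)) * g ^ (-(11 : ℝ) / 6) := by
      rw [hR, Real.div_rpow (by positivity) (by positivity),
        Real.mul_rpow hC0.le (by positivity), ← Real.rpow_mul hgY0.le, div_eq_mul_inv,
        ← Real.rpow_natCast g 2, ← Real.rpow_mul hg0.le, ← Real.rpow_neg hg0.le]
      congr 2
      · congr 1
        field_simp
        norm_num
      · norm_num
    rw [e1]
    have h1 : C ^ ((11 : ℝ) / 12) ≤ C := by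
      calc C ^ ((11 : ℝ) / 12) ≤ C ^ (1 : ℝ) :=
            Real.rpow_le_rpow_of_exponent_le hC (by norm_num)
        _ = C := Real.rpow_one _
    have h2 : (g * Y) ^ (11 / (2 * κ)) ≤ W ^ (11 / (2 * κ)) :=
      Real.rpow_le_rpow hgY0.le hW (by positivity)
    have h3 : g ^ (-(11 : ℝ) / 6) ≤ g ^ (-(13 : ℝ) / 8) :=
      Real.rpow_le_rpow_of_exponent_le hg (by norm_num)
    gcongr
  have hR1 : R ≤ C * Y := by
    have h1 : (g * Y) ^ (6 / κ) ≤ g * Y := by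
      calc (g * Y) ^ (6 / κ) ≤ (g * Y) ^ (1 : ℝ) :=
            Real.rpow_le_rpow_of_exponent_le hgY1 (by rw [div_le_one hκ0]; exact hκ)
        _ = _ := Real.rpow_one _
    calc R ≤ C * (g * Y) / g ^ 2 := by rw [hR]; gcongr
      _ = C * Y / g := by field_simp
      _ ≤ C * Y := div_le_self (by positivity) hg
  have hB3 : R ^ ((3 : ℝ) / 4) * Y ^ ((1 : ℝ) / 8) ≤
      C ^ ((3 : ℝ) / 4) * (W ^ (1 / 8 + 9 / (2 * κ)) * g ^ (-(13 : ℝ) / 8)) := by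
    have e1 : R ^ ((3 : ℝ) / 4) * Y ^ ((1 : ℝ) / 8) =
        C ^ ((3 : ℝ) / 4) * ((g * Y) ^ (1 / 8 + 9 / (2 * κ)) * g ^ (-(13 : ℝ) / 8)) := by
      have e2 : R ^ ((3 : ℝ) / 4) =
          C ^ ((3 : ℝ) / 4) * (g * Y) ^ (9 / (2 * κ)) * g ^ (-(3 : ℝ) / 2) := by
        rw [hR, Real.div_rpow (by positivity) (by positivity),
          Real.mul_rpow hC0.le (by positivity), ← Real.rpow_mul hgY0.le, div_eq_mul_inv,
          ← Real.rpow_natCast g 2, ← Real.rpow_mul hg0.le, ← Real.rpow_neg hg0.le]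
        congr 2
        · congr 1
          field_simp
          norm_num
        · norm_num
      have e3 : (g * Y) ^ (1 / 8 + 9 / (2 * κ)) =
          (g * Y) ^ (9 / (2 * κ)) * (g ^ ((1 : ℝ) / 8) * Y ^ ((1 : ℝ) / 8)) := by
        rw [add_comm, Real.rpow_add hgY0, Real.mul_rpow (x := g) hg0.le hY0.le (z := 1 / 8)]
      have e4 : g ^ ((1 : ℝ) / 8) * g ^ (-(13 : ℝ) / 8) = g ^ (-(3 : ℝ) / 2) := by
        rw [← Real.rpow_add hg0]
        norm_num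
      rw [e2, e3, ← e4]
      ring
    rw [e1]
    gcongr
  have hC34 : C ^ ((3 : ℝ) / 4) ≤ C := by
    calc C ^ ((3 : ℝ) / 4) ≤ C ^ (1 : ℝ) :=
          Real.rpow_le_rpow_of_exponent_le hC (by norm_num)
      _ = C := Real.rpow_one _
  have hB : Bd Y R ≤ C * W ^ (1 / 8 + 9 / (2 * κ)) * g ^ (-(13 : ℝ) / 8) := by
    refine (min_le_right _ _).trans (max_le ?_ ?_)
    · have e1 : R * Y ^ (-((1 : ℝ) / 8)) ≤
          C ^ ((1 : ℝ) / 4) * (R ^ ((3 : ℝ) / 4) * Y ^ ((1 : ℝ) / 8)) := by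
        have h1 : R = R ^ ((1 : ℝ) / 4) * R ^ ((3 : ℝ) / 4) := by
          rw [← Real.rpow_add hR0]
          norm_num
        have h2 : R ^ ((1 : ℝ) / 4) ≤ C ^ ((1 : ℝ) / 4) * Y ^ ((1 : ℝ) / 4) := by
          rw [← Real.mul_rpow hC0.le hY0.le]
          exact Real.rpow_le_rpow hR0.le hR1 (by norm_num)
        have h3 : Y ^ ((1 : ℝ) / 4) * Y ^ (-((1 : ℝ) / 8)) = Y ^ ((1 : ℝ) / 8) := by
          rw [← Real.rpow_add hY0]
          norm_num
        calc R * Y ^ (-((1 : ℝ) / 8)) =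
              R ^ ((1 : ℝ) / 4) * R ^ ((3 : ℝ) / 4) * Y ^ (-((1 : ℝ) / 8)) := by rw [← h1]
          _ ≤ (C ^ ((1 : ℝ) / 4) * Y ^ ((1 : ℝ) / 4)) * R ^ ((3 : ℝ) / 4) *
                Y ^ (-((1 : ℝ) / 8)) := by gcongr
          _ = C ^ ((1 : ℝ) / 4) * (R ^ ((3 : ℝ) / 4) *
                (Y ^ ((1 : ℝ) / 4) * Y ^ (-((1 : ℝ) / 8)))) := by ring
          _ = _ := by rw [h3]
      calc R * Y ^ (-((1 : ℝ) / 8)) ≤ C ^ ((1 : ℝ) / 4) *
            (C ^ ((3 : ℝ) / 4) * (W ^ (1 / 8 + 9 / (2 * κ)) * g ^ (-(13 : ℝ) / 8))) :=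
            e1.trans (mul_le_mul_of_nonneg_left hB3 (by positivity))
        _ = (C ^ ((1 : ℝ) / 4) * C ^ ((3 : ℝ) / 4)) *
            (W ^ (1 / 8 + 9 / (2 * κ)) * g ^ (-(13 : ℝ) / 8)) := by ring
        _ = C * W ^ (1 / 8 + 9 / (2 * κ)) * g ^ (-(13 : ℝ) / 8) := by
            rw [← Real.rpow_add hC0]
            norm_num
            ring
    · calc R ^ ((3 : ℝ) / 4) * Y ^ ((1 : ℝ) / 8) ≤
            C ^ ((3 : ℝ) / 4) * (W ^ (1 / 8 + 9 / (2 * κ)) * g ^ (-(13 : ℝ) / 8)) := hB3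
        _ ≤ C * (W ^ (1 / 8 + 9 / (2 * κ)) * g ^ (-(13 : ℝ) / 8)) := by gcongr
        _ = _ := by ring
  rcases min_choice (1 / 8 + 9 / (2 * κ)) (11 / (2 * κ)) with h | h <;> rw [h] <;> assumption

/-- the sum over the common factor converges -/
theorem sum_g : ∃ C : ℝ, 0 < C ∧ ∀ N : ℕ, ∑ g ∈ Icc 1 N, (g : ℝ) ^ (-(13 : ℝ) / 8) ≤ C := by
  have hs : Summable (fun n : ℕ => (n : ℝ) ^ (-(13 : ℝ) / 8)) :=
    Real.summable_nat_rpow.2 (by norm_num)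
  refine ⟨∑' n : ℕ, (n : ℝ) ^ (-(13 : ℝ) / 8) + 1, ?_, fun N => ?_⟩
  · have : 0 ≤ ∑' n : ℕ, (n : ℝ) ^ (-(13 : ℝ) / 8) := tsum_nonneg fun n => by positivity
    linarith
  · have := hs.sum_le_tsum (Icc 1 N) (fun n _ => by positivity)
    linarith

/-- the number of dyadic ranges -/
theorem log_bound (c η : ℝ) (hc : 1 ≤ c) (hη : 0 < η) : ∃ C : ℝ, 0 < C ∧ ∀ X : ℕ, 1 ≤ X →
    ((Nat.log 2 ⌊c * (X : ℝ)⌋₊ + 1 : ℕ) : ℝ) ≤ C * (X : ℝ) ^ η := by
  have h2 : 0 < Real.log 2 := Real.log_pos (by norm_num)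
  refine ⟨c ^ η / (η * Real.log 2) + 1, by positivity, fun X hX => ?_⟩
  have hX1 : (1 : ℝ) ≤ X := by exact_mod_cast hX
  have hcX : 1 ≤ c * (X : ℝ) := by nlinarith
  set n := ⌊c * (X : ℝ)⌋₊ with hn
  have hn1 : 1 ≤ n := by
    rw [hn, Nat.one_le_floor_iff]
    exact hcX
  have hlog : (Nat.log 2 n : ℝ) ≤ Real.log n / Real.log 2 := by
    rw [le_div_iff₀ h2, ← Real.log_pow]
    apply Real.log_le_log (by positivity)
    exact_mod_cast Nat.pow_log_le_self 2 (by omega)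
  have hn2 : (n : ℝ) ≤ c * X := Nat.floor_le (by positivity)
  have hlog2 : Real.log n ≤ (c * X) ^ η / η := by
    calc Real.log n ≤ Real.log (c * X) := Real.log_le_log (by exact_mod_cast hn1) hn2
      _ ≤ _ := Real.log_le_rpow_div (by positivity) hη
  have h3 : (X : ℝ) ^ η ≥ 1 := Real.one_le_rpow hX1 hη.le
  push_cast
  calc (Nat.log 2 n : ℝ) + 1 ≤ (c * X) ^ η / η / Real.log 2 + 1 := by
        have : Real.log n / Real.log 2 ≤ (c * X) ^ η / η / Real.log 2 := by gcongr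
        linarith
    _ = c ^ η / (η * Real.log 2) * (X : ℝ) ^ η + 1 := by
        rw [Real.mul_rpow (by linarith) (by linarith), div_div]
        ring
    _ ≤ (c ^ η / (η * Real.log 2) + 1) * (X : ℝ) ^ η := by linarith

end Pool.Agent.W4.CF
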