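import Pool.Agent.W4.CF.Stms

/-!
# Project CF: the statement that involves the conductor
-/

set_option autoImplicit false

namespace Pool.Agent.W4.CF

/-- the discriminant of `x³ - a x - b` -/
def DD (a b : ℤ) : ℤ := 4 * a ^ 3 - 27 * b ^ 2

/-- minimal model (same as `Pool.Agent.H925R.Szpiro.IsMin`) -/
def IsMinM (a b : ℤ) : Prop :=
  DD a b ≠ 0 ∧ ∀ (u : ℚ) (a' b' : ℤ), u ≠ 0 → (a' : ℚ) = u ^ 4 * a → (b' : ℚ) = u ^ 6 * b →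
    |DD a b| ≤ |DD a' b'|

/-- the prime-to-6 part of the conductor (same as `Pool.Agent.H925R.Szpiro.condS`) -/
def condM (a b : ℤ) : ℕ :=
  ∏ p ∈ (DD a b).natAbs.primeFactors.filter (fun p => 5 ≤ p), if (p : ℤ) ∣ a then p ^ 2 else p

/-- COND: the conductor of a minimal model in terms of the parameters. -/
def S_COND : Prop := ∀ a0 b0 : ℤ, 4 * a0 ^ 3 - 27 * b0 ^ 2 ≠ 0 → ∃ C : ℝ, 0 < C ∧
  ∀ (a b u v : ℤ) (g : ℕ), 1 ≤ g → IsCoprime u v → IsMinM a b →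
    (4 * a0 ^ 3 - 27 * b0 ^ 2) ^ 2 * a = Fa a0 b0 (g * u) (g * v) →
    (4 * a0 ^ 3 - 27 * b0 ^ 2) ^ 3 * b = Fb a0 b0 (g * u) (g * v) →
    (g : ℝ) ^ 2 * (radp (6 * (4 * a0 ^ 3 - 27 * b0 ^ 2).natAbs * g)
      (G (9 * a0) (27 * b0) u v).natAbs : ℝ) ≤ C * (condM a b : ℝ)

end Pool.Agent.W4.CF
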